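import Pool.Agent.Lib.MP_0e7911_co_h50.CoreAll
import Pool.Agent.Lib.MP_0e7911_co_h61.Window
import Pool.Agent.Lib.MP_0e7911_co_h88.M7c
import Pool.Agent.Lib.MP_0e7911_co_h56.PathKeySum
import Pool.Agent.Lib.MP_0e7911_co_h43.Profile

/-!
# Paths with a given base and a given profile
-/

set_option autoImplicit false

namespace Pool.Agent.Lib.MP_0e7911_co_h50

open Finset

theorem key_le_iff {N : ℕ} (k k' : Key N) :
    k ≤ k' ↔ k.lev < k'.lev ∨ (k.lev = k'.lev ∧ k'.lab ≤ k.lab) := by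
  rw [Prod.Lex.le_iff]
  rfl

theorem RK_mono_left (m : ℕ) {N : ℕ} (x x' y : Key N) (h : x ≤ x') (hR : RK m x y) :
    RK m x' y := by
  rw [key_le_iff] at h
  unfold RK at *
  rcases h with h | ⟨h1, h2⟩
  · left
    rcases hR with hR | ⟨hR, _⟩ <;> omega
  · rcases hR with hR | ⟨hR, hR'⟩
    · left; omega
    · right
      exact ⟨by omega, lt_of_le_of_lt h2 hR'⟩

theorem RK_mono_right (m : ℕ) {N : ℕ} (x y y' : Key N) (h : y' ≤ y) (hR : RK m x y) :
    RK m x y' := by
  rw [key_le_iff] at h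
  unfold RK at *
  rcases h with h | ⟨h1, h2⟩
  · left
    rcases hR with hR | ⟨hR, _⟩ <;> omega
  · rcases hR with hR | ⟨hR, hR'⟩
    · left; omega
    · right
      exact ⟨by omega, lt_of_lt_of_le hR' h2⟩

theorem lev_mono {e N : ℕ} {G : Fin (e + 1) → Key N} (hG : Monotone G) {r r' : Fin (e + 1)}
    (h : r ≤ r') : (G r).lev ≤ (G r').lev := by
  have := hG h
  rw [key_le_iff] at this
  rcases this with h | ⟨h, _⟩ <;> omega

section

variable {K : Type*} [Field K] {b e a N : ℕ}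

theorem board_mono (R : Key N → Key N → Prop) [DecidableRel R]
    (hR1 : ∀ x x' y, x ≤ x' → R x y → R x' y)
    (F : ℕ → Fin (e + 1) → Key N) (hF : ∀ i, Monotone (F i)) (i : ℕ) :
    Monotone (board R F i) := by
  intro r s hrs
  unfold board
  refine card_le_card fun x hx => ?_
  rw [mem_filter] at hx ⊢
  exact ⟨mem_univ _, hR1 _ _ _ (hF i hrs) hx.2⟩

theorem board_le (R : Key N → Key N → Prop) [DecidableRel R]
    (F : ℕ → Fin (e + 1) → Key N) (i : ℕ) (r : Fin (e + 1)) : board R F i r ≤ e + 1 := by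
  unfold board
  exact (card_filter_le _ _).trans (by simp)

theorem board_per (R : Key N → Key N → Prop) [DecidableRel R]
    (F : ℕ → Fin (e + 1) → Key N) (hper : ∀ i, F (i + (b + 1)) = F i) (i : ℕ) :
    board R F (i + (b + 1)) = board R F i := by
  funext r
  unfold board
  rw [hper, show i + (b + 1) + 1 = (i + 1) + (b + 1) by ring, hper]

/-- the symmetry factor of a profile -/
noncomputable def Phi (q : K) (b : ℕ) (F : ℕ → Fin (e + 1) → Key N) : K :=
  ∏ i ∈ range (b + 1), ∑ g : Equiv.Perm (Fin (e + 1)), if F i ∘ g = F i then q ^ inv g else 0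

open scoped Classical in
theorem T_eq (q : K) (hq : q ≠ 0) (ha : 0 < a)
    (hcop : Nat.Coprime a (b + 1)) (F : ℕ → Fin (e + 1) → Key N) (hF : ∀ i, Monotone (F i))
    (hper : ∀ i, F (i + (b + 1)) = F i)
    (hlev : ∀ (i : ℕ) (r : Fin (e + 1)),
      ((((e + 1) * (b + 1) : ℕ) : ℤ)) ∣ (F i r).lev - (((e + 1) * a : ℕ) : ℤ) * (i : ℤ))
    (hpos : ∀ i r, 0 ≤ (F i r).lev) (hzero : ∃ i r, (F i r).lev = 0) (A : K)
    (hA : ∀ (j : ℕ) (r : Fin (e + 1)),
      PP (b := b) q (fun i => board (RK ((e + 1) * a)) F (i + j)) r =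
        q ^ ((r : ℕ) + predc (board (RK ((e + 1) * a)) F (j + b)) r) * A)
    (S j i o : ℕ)
    (hSj : ((((e + 1) * (b + 1) : ℕ) : ℤ)) ∣ (S : ℤ) - (((e + 1) * a : ℕ) : ℤ) * (j : ℤ))
    (hi : i = (univ.filter (fun r : Fin (e + 1) => (F j r).lev ≤ (S : ℤ))).card)
    (ho : o = (univ.filter (fun r : Fin (e + 1) =>
      (F (j + b) r).lev + (((e + 1) * a : ℕ) : ℤ) ≤ (S : ℤ))).card) :
    (q - 1) * ((∑ p : (Fin ((e + 1) * (b + 1)) → Fin ((e + 1) * a)) ×
        (Fin ((e + 1) * (b + 1)) → Fin N),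
      if IsLRP ((e + 1) * a) (fun i => (p.1 i : ℕ)) p.2 ∧
          IsBase ((e + 1) * a) (fun i => (p.1 i : ℕ)) (S : ℤ) ∧
          keyf ((e + 1) * a) (fun i => (p.1 i : ℕ)) p.2 (S : ℤ) ∈ Seqs F j
        then q ^ Tst ((e + 1) * a) (fun i => (p.1 i : ℕ)) p.2 else 0) * Phi q b F) =
      (q ^ (e + 1 + i - o) - q ^ (e + 1)) * A := by
  rw [path_key_sum q ha hcop F hper hlev hpos hzero S j hSj]
  unfold Phi
  rw [key_sum q (RK ((e + 1) * a)) (RK_mono_left _) (RK_mono_right _) F hF hper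
    (fun f => (f 0 0).lev ≤ (S : ℤ) ∧
      (S : ℤ) < (f (Fin.last b) (Fin.last e)).lev + (((e + 1) * a : ℕ) : ℤ)) j]
  have hi1 : ∀ r : Fin (e + 1), (F j r).lev ≤ (S : ℤ) ↔ (r : ℕ) < i := by
    intro r
    rw [hi]
    refine M7c.lt_card_iff (fun r : Fin (e + 1) => (F j r).lev ≤ (S : ℤ)) (fun x y hxy hy => ?_) r
    exact (lev_mono (hF j) hxy).trans hy
  have ho1 : ∀ r : Fin (e + 1),
      (F (j + b) r).lev + (((e + 1) * a : ℕ) : ℤ) ≤ (S : ℤ) ↔ (r : ℕ) < o := by
    intro r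
    rw [ho]
    refine M7c.lt_card_iff (fun r : Fin (e + 1) =>
      (F (j + b) r).lev + (((e + 1) * a : ℕ) : ℤ) ≤ (S : ℤ)) (fun x y hxy hy => ?_) r
    have := lev_mono (hF (j + b)) hxy
    omega
  have hi2 : i ≤ e + 1 := by rw [hi]; exact (card_filter_le _ _).trans (by simp)
  have ho2 : o ≤ e + 1 := by rw [ho]; exact (card_filter_le _ _).trans (by simp)
  have hFj : F (j + b + 1) = F j := by rw [add_assoc, hper]
  have hb : ∀ (r r' : Fin (e + 1)), (r' : ℕ) < board (RK ((e + 1) * a)) F (j + b) r ↔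
      RK ((e + 1) * a) (F (j + b) r) (F j r') := by
    intro r r'
    rw [M7c.board_iff _ F (RK_mono_right _) hF, hFj]
  have W := window_sum (b := b) q hq (fun i => board (RK ((e + 1) * a)) F i)
    (fun i => board_mono _ (RK_mono_left _) F hF i) (fun i => board_per _ F hper i)
    (fun i r => board_le _ F i r) A hA j i o hi2 ho2 ?_ ?_
  · rw [← W]
    congr 1
    rw [← Finset.sum_sub_distrib]
    refine sum_congr rfl fun τ _ => ?_
    have c1 : (fun i : Fin (b + 1) => F ((i : ℕ) + j) ∘ ⇑(τ i)) 0 0 = F j (τ 0 0) := by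
      simp
    have c2 : (fun i : Fin (b + 1) => F ((i : ℕ) + j) ∘ ⇑(τ i)) (Fin.last b) (Fin.last e) =
        F (j + b) (τ (Fin.last b) (Fin.last e)) := by
      simp [add_comm]
    rw [c1, c2]
    by_cases hAdj : Adj (fun i => board (RK ((e + 1) * a)) F (i + j)) τ
    · -- closing condition
      have hclose : (τ 0 0 : ℕ) < board (RK ((e + 1) * a)) F (b + j) (τ (Fin.last b) (Fin.last e)) := by
        have := hAdj.2 (Fin.last e)
        rw [H61W.last_add_one] at this
        exact this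
      rw [add_comm b j, hb] at hclose
      by_cases h1 : (τ 0 0 : ℕ) < i
      · by_cases h2 : (τ (Fin.last b) (Fin.last e) : ℕ) < o
        · have h2' := (ho1 _).2 h2
          rw [if_neg, if_pos ⟨hAdj, h1⟩, if_pos ⟨hAdj, h2⟩, sub_self]
          rintro ⟨_, _, h3⟩
          omega
        · have h2' := (ho1 _).not.2 h2
          rw [if_pos ⟨hAdj, (hi1 _).2 h1, by omega⟩, if_pos ⟨hAdj, h1⟩, if_neg (fun h => h2 h.2),
            sub_zero]
      · have h1' := (hi1 _).not.2 h1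
        have h2 : ¬ ((τ (Fin.last b) (Fin.last e) : ℕ) < o) := by
          intro h2
          have h2' := (ho1 _).2 h2
          unfold RK at hclose
          rcases hclose with h | ⟨h, _⟩ <;> omega
        rw [if_neg (fun h => h1' h.2.1), if_neg (fun h => h1 h.2), if_neg (fun h => h2 h.2), sub_zero]
    · rw [if_neg (fun h => hAdj h.1), if_neg (fun h => hAdj h.1), if_neg (fun h => hAdj h.1),
        sub_zero]
  · intro r hr
    have hr' := (ho1 r).2 hr
    by_contra hcon
    push Not at hcon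
    by_cases hie : i < e + 1
    · have h3 := (hb r ⟨i, hie⟩).1 hcon
      have h4 : ¬ ((F j ⟨i, hie⟩).lev ≤ (S : ℤ)) := by
        rw [hi1]; simp
      unfold RK at h3
      rcases h3 with h | ⟨h, _⟩ <;> omega
    · have := board_le (RK ((e + 1) * a)) F (j + b) r
      omega
  · intro r hr
    by_contra hcon
    push Not at hcon
    have hie : board (RK ((e + 1) * a)) F (j + b) r < e + 1 := by omega
    have h3 := (hb r ⟨_, hie⟩).not.1 (lt_irrefl _)
    have h4 := (hi1 ⟨_, hie⟩).2 hcon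
    have h5 := (ho1 r).not.2 (by omega)
    apply h3
    left
    omega

end

end Pool.Agent.Lib.MP_0e7911_co_h50
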