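import Mathlib

/-!
# Basic definitions for the rectangular square paths identity (MP_0e7911_co)

Hecke side: matrices indexed by permutations of `Fin d` (a permutation `c` sends a
position (rank) to a colour (time)).
-/

set_option autoImplicit false

namespace Pool.Agent.Lib.MP_0e7911_co_h50

open Finset

/-- The transposition of `i` and `i+1` in `Fin d`. -/
def sw (d i : ℕ) (h : i + 1 < d) : Equiv.Perm (Fin d) :=
  Equiv.swap ⟨i, by omega⟩ ⟨i + 1, h⟩

/-- Hecke operator acting on the colours `i, i+1` (right regular action), as a matrix: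
column `c` is `R c = c*` if colour `i` sits at a lower position than colour `i+1`, and
`R c = (q-1) c + q c*` otherwise, where `c* = sw * c`. -/
def Rop {K : Type*} [CommRing K] (q : K) (d i : ℕ) (h : i + 1 < d) :
    Matrix (Equiv.Perm (Fin d)) (Equiv.Perm (Fin d)) K :=
  fun c' c =>
    if c' = sw d i h * c then
      (if c⁻¹ ⟨i, by omega⟩ < c⁻¹ ⟨i + 1, h⟩ then 1 else q)
    else if c' = c then
      (if c⁻¹ ⟨i, by omega⟩ < c⁻¹ ⟨i + 1, h⟩ then 0 else q - 1)
    else 0

/-- `X` commutes with all colour operators. -/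
def Comm {K : Type*} [CommRing K] (q : K) {d : ℕ}
    (X : Matrix (Equiv.Perm (Fin d)) (Equiv.Perm (Fin d)) K) : Prop :=
  ∀ (i : ℕ) (h : i + 1 < d), X * Rop q d i h = Rop q d i h * X

/-- The cut functional: sum over `c` with colour `0` at position `r` of the matrix entry
from `c` to the cyclically shifted colouring (`colour j ↦ j-1`, `0 ↦ d-1`). -/
def Lam {K : Type*} [CommRing K] {d : ℕ} (r : Fin d)
    (X : Matrix (Equiv.Perm (Fin d)) (Equiv.Perm (Fin d)) K) : K :=
  ∑ c : Equiv.Perm (Fin d), if (c r : ℕ) = 0 then X ((finRotate d)⁻¹ * c) c else 0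

/-- The matrix of a board: `al p` is the number of allowed successors of the element of
rank `p` (the allowed ones are those of rank `< al p`). -/
def Bmat {K : Type*} [CommRing K] (q : K) {d : ℕ} (al : Fin d → ℕ) :
    Matrix (Equiv.Perm (Fin d)) (Equiv.Perm (Fin d)) K :=
  fun c' c =>
    if ∀ p : Fin d, ((c'⁻¹ (c p) : Fin d) : ℕ) < al p then
      q ^ (univ.filter (fun pp : Fin d × Fin d =>
        pp.1 < pp.2 ∧ c pp.2 < c pp.1 ∧ ((c'⁻¹ (c pp.2) : Fin d) : ℕ) < al pp.1)).card
    else 0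

/-- Number of inversions of a permutation (as a function of time). -/
def inv {d : ℕ} (τ : Equiv.Perm (Fin d)) : ℕ :=
  (univ.filter (fun st : Fin d × Fin d => st.1 < st.2 ∧ τ st.2 < τ st.1)).card

/-- Cyclic adjacency condition of a table `τ : Fin (b+1) → Perm (Fin (e+1))`
(`τ i t` = rank of the element of class `i` in round `t`). -/
def Adj {b e : ℕ} (al : ℕ → Fin (e + 1) → ℕ) (τ : Fin (b + 1) → Equiv.Perm (Fin (e + 1))) : Prop :=
  (∀ (i : Fin b) (t : Fin (e + 1)), (τ i.succ t : ℕ) < al i (τ i.castSucc t)) ∧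
  (∀ t : Fin (e + 1), (τ 0 (t + 1) : ℕ) < al b (τ (Fin.last b) t))

instance {b e : ℕ} (al : ℕ → Fin (e + 1) → ℕ) (τ : Fin (b + 1) → Equiv.Perm (Fin (e + 1))) :
    Decidable (Adj al τ) := by unfold Adj; infer_instance

/-- The statistic of a table. -/
def TT {b e : ℕ} (al : ℕ → Fin (e + 1) → ℕ) (τ : Fin (b + 1) → Equiv.Perm (Fin (e + 1))) : ℕ :=
  (∑ i, inv (τ i)) +
  (∑ i : Fin b, (univ.filter (fun st : Fin (e + 1) × Fin (e + 1) =>
      st.1 < st.2 ∧ (τ i.succ st.1 : ℕ) < al i (τ i.castSucc st.2))).card) +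
  (univ.filter (fun st : Fin (e + 1) × Fin (e + 1) =>
      st.1 ≤ st.2 ∧ (τ 0 st.1 : ℕ) < al b (τ (Fin.last b) st.2))).card

/-- Sum over all tables whose first element has rank `r`. -/
def PP {K : Type*} [CommRing K] (q : K) {b e : ℕ} (al : ℕ → Fin (e + 1) → ℕ)
    (r : Fin (e + 1)) : K :=
  ∑ τ : Fin (b + 1) → Equiv.Perm (Fin (e + 1)),
    if Adj al τ ∧ τ 0 0 = r then q ^ TT al τ else 0

/-- Number of predecessors of rank `r` for the board `a`. -/
def predc {e : ℕ} (a : Fin (e + 1) → ℕ) (r : Fin (e + 1)) : ℕ :=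
  (univ.filter (fun p : Fin (e + 1) => (r : ℕ) < a p)).card

end Pool.Agent.Lib.MP_0e7911_co_h50
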