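import Pool.Agent.Lib.MP_0e7911_co_h50.Cut
import Pool.Agent.Lib.MP_0e7911_co_h6.Core
import Pool.Agent.Lib.MP_0e7911_co_h88.M3

/-!
# The core lemma, assembled
-/

set_option autoImplicit false

namespace Pool.Agent.Lib.MP_0e7911_co_h50

open Finset

theorem core {K : Type*} [Field K] (q : K) (hq : q ≠ 0) {b e : ℕ}
    (al : ℕ → Fin (e + 1) → ℕ) (hmono : ∀ i, Monotone (al i))
    (hper : ∀ i, al (i + (b + 1)) = al i) :
    ∃ A : K, ∀ (j : ℕ) (r : Fin (e + 1)),
      PP (b := b) q (fun i => al (i + j)) r = q ^ ((r : ℕ) + predc (al (j + b)) r) * A :=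
  core_of q (fun a ha => Bmat_comm q a ha)
    (fun X hX r => Lam_shift hq X hX r)
    (fun X Y hX hY => Lam_cyc hq X Y hX hY) al hmono hper

end Pool.Agent.Lib.MP_0e7911_co_h50
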