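import Pool.Agent.Lib.MP_0e7911_co_h50.HeckeTrace

/-!
# The cut functionals: Markov properties, trace property and shift property
-/

set_option autoImplicit false

namespace Pool.Agent.Lib.MP_0e7911_co_h50

open Finset Equiv

section rho

/-- colour shift on `{0, ..., e-k}`: `0 ↦ e-k`, `j ↦ j-1` -/
def rho (e k : ℕ) : Perm (Fin (e + 1)) := (Fin.cycleRange (⟨e - k, by omega⟩ : Fin (e + 1)))⁻¹

theorem rho_val (e k : ℕ) (a : Fin (e + 1)) :
    ((rho e k a : Fin (e + 1)) : ℕ) =
      if (a : ℕ) = 0 then e - k else if (a : ℕ) ≤ e - k then (a : ℕ) - 1 else a := by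
  unfold rho
  rw [Equiv.Perm.inv_def]
  rcases Fin.eq_zero_or_eq_succ a with rfl | ⟨j, rfl⟩
  · rw [Fin.cycleRange_symm_zero]; simp
  · rw [Fin.cycleRange_symm_succ]
    by_cases h : (j : ℕ) < e - k
    · rw [Fin.succAbove_of_castSucc_lt _ _ (by rw [Fin.lt_def]; exact h)]
      rw [Fin.val_castSucc, Fin.val_succ, if_neg (by omega), if_pos (by omega)]
      omega
    · rw [Fin.succAbove_of_le_castSucc _ _ (by rw [Fin.le_def]; exact not_lt.1 h)]
      rw [Fin.val_succ, if_neg (by omega), if_neg (by omega)]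

theorem rho_zero (e : ℕ) : rho e 0 = (finRotate (e + 1))⁻¹ := by
  unfold rho
  have : (⟨e - 0, by omega⟩ : Fin (e + 1)) = Fin.last e := by ext; simp
  rw [this, Fin.cycleRange_last]

end rho

section cut

variable {K : Type*} [Field K] {q : K} {e : ℕ}

/-- admissible colourings for the cut at position `k` -/
def VK (k : ℕ) (c : Perm (Fin (e + 1))) : Prop :=
  (∀ j : Fin (e + 1), (j : ℕ) < k → ((c j : Fin (e + 1)) : ℕ) = e - j) ∧
  (∀ j : Fin (e + 1), (j : ℕ) = k → ((c j : Fin (e + 1)) : ℕ) = 0)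

instance (k : ℕ) (c : Perm (Fin (e + 1))) : Decidable (VK k c) := by unfold VK; infer_instance

/-- the cut functional on `H(k)` -/
def LamK (K : Type*) [Field K] (e k : ℕ) :
    Matrix (Perm (Fin (e + 1))) (Perm (Fin (e + 1))) K →ₗ[K] K where
  toFun X := ∑ c : Perm (Fin (e + 1)), if VK k c then X (rho e k * c) c else 0
  map_add' X Y := by
    rw [← Finset.sum_add_distrib]
    apply Finset.sum_congr rfl
    intro c _
    split_ifs
    · rfl
    · simp
  map_smul' r X := by
    rw [RingHom.id_apply, smul_eq_mul, Finset.mul_sum]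
    apply Finset.sum_congr rfl
    intro c _
    split_ifs
    · rfl
    · simp

theorem LamK_apply (k : ℕ) (X : Matrix (Perm (Fin (e + 1))) (Perm (Fin (e + 1))) K) :
    LamK K e k X = ∑ c : Perm (Fin (e + 1)), if VK k c then X (rho e k * c) c else 0 := rfl

/-- values at positions `> k` of an admissible colouring lie in `[1, e-k]` -/
theorem VK_range {k : ℕ} {c : Perm (Fin (e + 1))} (hc : VK k c) {j : Fin (e + 1)}
    (hj : k < (j : ℕ)) : 1 ≤ ((c j : Fin (e + 1)) : ℕ) ∧ ((c j : Fin (e + 1)) : ℕ) ≤ e - k := by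
  have hje := j.isLt
  constructor
  · by_contra h
    have h0 : ((c j : Fin (e + 1)) : ℕ) = 0 := by omega
    have h1 := hc.2 ⟨k, by omega⟩ rfl
    have h2 : c j = c ⟨k, by omega⟩ := Fin.ext (by rw [h0, h1])
    have h3 := congrArg Fin.val (c.injective h2)
    simp at h3; omega
  · by_contra h
    have hlt := (c j).isLt
    have hb : e - ((c j : Fin (e + 1)) : ℕ) < k := by omega
    have h1 := hc.1 ⟨e - ((c j : Fin (e + 1)) : ℕ), by omega⟩ hb
    have h2 : c j = c ⟨e - ((c j : Fin (e + 1)) : ℕ), by omega⟩ := Fin.ext (by rw [h1]; simp; omega)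
    have h3 := congrArg Fin.val (c.injective h2)
    simp at h3; omega

theorem VK_sw {k i : ℕ} (h : i + 1 < e + 1) (hki : k < i) {c : Perm (Fin (e + 1))}
    (hc : VK k c) : VK k (c * sw (e + 1) i h) := by
  have key : ∀ j : Fin (e + 1), (j : ℕ) ≤ k → sw (e + 1) i h j = j := by
    intro j hj
    apply Fin.ext; rw [sw_val]
    split_ifs <;> omega
  constructor
  · intro j hj
    rw [Equiv.Perm.mul_apply, key j hj.le]; exact hc.1 j hj
  · intro j hj
    rw [Equiv.Perm.mul_apply, key j hj.le]; exact hc.2 j hj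

theorem VK_sw_iff {k i : ℕ} (h : i + 1 < e + 1) (hki : k < i) (c : Perm (Fin (e + 1))) :
    VK k (c * sw (e + 1) i h) ↔ VK k c := by
  constructor
  · intro h1
    have := VK_sw h hki h1
    rwa [mul_sw_sw] at this
  · exact VK_sw h hki

theorem LamK_F2 (k i : ℕ) (hki : k < i) (hi : i < e)
    (X : Matrix (Perm (Fin (e + 1))) (Perm (Fin (e + 1))) K) :
    LamK K e k (X * tg q e i) = LamK K e k (tg q e i * X) := by
  have h : i + 1 < e + 1 := by omega
  rw [tg_eq h]
  rw [← sub_eq_zero, LamK_apply, LamK_apply, ← Finset.sum_sub_distrib]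
  have hcomb : ∀ c : Perm (Fin (e + 1)),
      ((if VK k c then (X * Top q (e + 1) i h) (rho e k * c) c else 0) -
        if VK k c then (Top q (e + 1) i h * X) (rho e k * c) c else 0) =
      if VK k c then (if c ⟨i, by omega⟩ < c ⟨i + 1, h⟩
        then X (rho e k * c) (c * sw (e + 1) i h) - q * X (rho e k * (c * sw (e + 1) i h)) c
        else q * X (rho e k * c) (c * sw (e + 1) i h) - X (rho e k * (c * sw (e + 1) i h)) c)
      else 0 := by
    intro c
    by_cases hc : VK k c
    · rw [if_pos hc, if_pos hc, if_pos hc, mul_Top_apply, Top_mul_apply]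
      unfold tl
      have r1 := VK_range hc (j := ⟨i, by omega⟩) hki
      have r2 := VK_range hc (j := ⟨i + 1, h⟩) (by simp; omega)
      have hiff : ((rho e k * c) ⟨i, by omega⟩ < (rho e k * c) ⟨i + 1, h⟩) ↔
          (c ⟨i, by omega⟩ < c ⟨i + 1, h⟩) := by
        simp only [Equiv.Perm.mul_apply, Fin.lt_def, rho_val]
        split_ifs <;> omega
      rw [if_congr hiff rfl rfl, ← mul_assoc]
      split_ifs <;> ring
    · rw [if_neg hc, if_neg hc, if_neg hc, sub_zero]
  rw [Finset.sum_congr rfl (fun c _ => hcomb c)]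
  apply Finset.sum_involution (fun c _ => c * sw (e + 1) i h)
  · intro c _
    simp only [VK_sw_iff h hki]
    by_cases hc : VK k c
    · rw [if_pos hc, if_pos hc]
      have e2 : (c * sw (e + 1) i h) ⟨i, by omega⟩ = c ⟨i + 1, h⟩ := by
        rw [Equiv.Perm.mul_apply, sw_left]
      have e3 : (c * sw (e + 1) i h) ⟨i + 1, h⟩ = c ⟨i, by omega⟩ := by
        rw [Equiv.Perm.mul_apply, sw_right]
      rw [e2, e3, mul_sw_sw]
      have hne : c ⟨i, by omega⟩ ≠ c ⟨i + 1, h⟩ := by
        intro hh; have := c.injective hh; simp at this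
      rcases lt_or_gt_of_ne hne with hlt | hgt
      · rw [if_pos hlt, if_neg (not_lt.2 hlt.le)]; ring
      · rw [if_pos hgt, if_neg (not_lt.2 hgt.le)]; ring
    · rw [if_neg hc, if_neg hc, add_zero]
  · intro c _ _
    exact mul_sw_ne i h c
  · intro c _; exact Finset.mem_univ _
  · intro c _; exact mul_sw_sw i h c

/-- `X` does not move the colours at positions `< k` -/
def Stab (k : ℕ) (X : Matrix (Perm (Fin (e + 1))) (Perm (Fin (e + 1))) K) : Prop :=
  ∀ c' c, X c' c ≠ 0 → ∀ j : Fin (e + 1), (j : ℕ) < k → c' j = c j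

theorem HH_stab {k : ℕ} {X : Matrix (Perm (Fin (e + 1))) (Perm (Fin (e + 1))) K}
    (hX : X ∈ HH K (tg q e) e k) : Stab k X := by
  induction hX using Algebra.adjoin_induction with
  | mem x hx =>
    obtain ⟨i, h1, h2, rfl⟩ := hx
    have h : i + 1 < e + 1 := by omega
    rw [tg_eq h]
    intro c' c hne j hj
    unfold Top at hne
    by_cases e1 : c' = c * sw (e + 1) i h
    · rw [e1, Equiv.Perm.mul_apply]
      congr 1
      apply Fin.ext; rw [sw_val]
      split_ifs <;> omega
    · by_cases e2 : c' = c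
      · rw [e2]
      · rw [if_neg e1, if_neg e2, add_zero] at hne
        exact absurd rfl hne
  | algebraMap r =>
    intro c' c hne j _
    rw [Matrix.algebraMap_matrix_apply] at hne
    by_cases e2 : c' = c
    · rw [e2]
    · rw [if_neg e2] at hne; exact absurd rfl hne
  | add x y _ _ h1 h2 =>
    intro c' c hne j hj
    by_cases e1 : x c' c = 0
    · have : y c' c ≠ 0 := by
        intro h3; apply hne; rw [Matrix.add_apply, e1, h3, add_zero]
      exact h2 c' c this j hj
    · exact h1 c' c e1 j hj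
  | mul x y _ _ h1 h2 =>
    intro c' c hne j hj
    rw [Matrix.mul_apply] at hne
    obtain ⟨c'', _, h3⟩ := Finset.exists_ne_zero_of_sum_ne_zero hne
    rw [h1 c' c'' (left_ne_zero_of_mul h3) j hj, h2 c'' c (right_ne_zero_of_mul h3) j hj]

theorem LamK_F0 (k : ℕ) (hk : k < e) (X : Matrix (Perm (Fin (e + 1))) (Perm (Fin (e + 1))) K)
    (hX : X ∈ HH K (tg q e) e (k + 1)) : LamK K e k X = 0 := by
  rw [LamK_apply]
  apply Finset.sum_eq_zero
  intro c _
  by_cases hc : VK k c
  · rw [if_pos hc]
    by_contra hne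
    have h1 := HH_stab hX _ _ hne ⟨k, by omega⟩ (by simp)
    have h2 := hc.2 ⟨k, by omega⟩ rfl
    have h3 := congrArg Fin.val h1
    rw [Equiv.Perm.mul_apply, rho_val, h2, if_pos rfl] at h3
    omega
  · rw [if_neg hc]

theorem LamK_F1 (k : ℕ) (hk : k < e) (X : Matrix (Perm (Fin (e + 1))) (Perm (Fin (e + 1))) K)
    (hX : X ∈ HH K (tg q e) e (k + 1)) :
    LamK K e k (X * tg q e k) = LamK K e (k + 1) X := by
  have h : k + 1 < e + 1 := by omega
  rw [tg_eq h, LamK_apply, LamK_apply]
  apply Fintype.sum_equiv (Equiv.mulRight (sw (e + 1) k h))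
  intro c
  rw [Equiv.coe_mulRight]
  have vl : ∀ j : Fin (e + 1), (j : ℕ) < k → sw (e + 1) k h j = j := by
    intro j hj
    apply Fin.ext; rw [sw_val]
    split_ifs <;> omega
  by_cases hc : VK k c
  · rw [if_pos hc, mul_Top_apply]
    have r2 := VK_range hc (j := ⟨k + 1, h⟩) (by simp)
    have h0 := hc.2 ⟨k, by omega⟩ rfl
    have hasc : c ⟨k, by omega⟩ < c ⟨k + 1, h⟩ := by rw [Fin.lt_def, h0]; omega
    rw [if_pos hasc]
    by_cases hv : ((c ⟨k + 1, h⟩ : Fin (e + 1)) : ℕ) = e - k
    · have hVK : VK (k + 1) (c * sw (e + 1) k h) := by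
        constructor
        · intro j hj
          rcases Nat.lt_or_ge (j : ℕ) k with h1 | h1
          · rw [Equiv.Perm.mul_apply, vl j h1]; exact hc.1 j h1
          · have hjk : j = ⟨k, by omega⟩ := Fin.ext (by simp; omega)
            rw [hjk, Equiv.Perm.mul_apply, sw_left, hv]
        · intro j hj
          have hjk : j = ⟨k + 1, h⟩ := Fin.ext (by simp; omega)
          rw [hjk, Equiv.Perm.mul_apply, sw_right, h0]
      rw [if_pos hVK]
      congr 1
      ext j
      simp only [Equiv.Perm.mul_apply]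
      rcases Nat.lt_trichotomy (j : ℕ) k with h1 | h1 | h1
      · rw [vl j h1]
        have := hc.1 j h1
        simp only [rho_val, this]
        split_ifs <;> omega
      · have hjk : j = ⟨k, by omega⟩ := Fin.ext (by simp; omega)
        rw [hjk, sw_left]
        simp only [rho_val, h0, hv]
        split_ifs <;> omega
      · rcases Nat.lt_or_ge (k + 1) (j : ℕ) with h2 | h2
        · have hs : sw (e + 1) k h j = j := by
            apply Fin.ext; rw [sw_val]
            split_ifs <;> omega
          rw [hs]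
          have r := VK_range hc (j := j) h1
          have hne : ((c j : Fin (e + 1)) : ℕ) ≠ e - k := by
            intro h3
            have h4 : c j = c ⟨k + 1, h⟩ := Fin.ext (by rw [h3, hv])
            have h5 := congrArg Fin.val (c.injective h4)
            simp at h5; omega
          simp only [rho_val]
          split_ifs <;> omega
        · have hjk : j = ⟨k + 1, h⟩ := Fin.ext (by simp; omega)
          rw [hjk, sw_right]
          simp only [rho_val, h0, hv]
          split_ifs <;> omega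
    · have hVK : ¬ VK (k + 1) (c * sw (e + 1) k h) := by
        intro h1
        have := h1.1 ⟨k, by omega⟩ (by simp)
        rw [Equiv.Perm.mul_apply, sw_left] at this
        exact hv this
      rw [if_neg hVK]
      by_contra hne
      have h1 := HH_stab hX _ _ hne ⟨k, by omega⟩ (by simp)
      have h3 := congrArg Fin.val h1
      rw [Equiv.Perm.mul_apply, Equiv.Perm.mul_apply, sw_left, rho_val, h0, if_pos rfl] at h3
      exact hv h3.symm
  · rw [if_neg hc]
    have hVK : ¬ VK (k + 1) (c * sw (e + 1) k h) := by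
      intro h1
      apply hc
      constructor
      · intro j hj
        have := h1.1 j (by omega)
        rwa [Equiv.Perm.mul_apply, vl j hj] at this
      · intro j hj
        have hjk : j = ⟨k, by omega⟩ := Fin.ext (by simp; omega)
        have := h1.2 ⟨k + 1, h⟩ rfl
        rw [Equiv.Perm.mul_apply, sw_right] at this
        rw [hjk]; exact this
    rw [if_neg hVK]

theorem LamK_zero (X : Matrix (Perm (Fin (e + 1))) (Perm (Fin (e + 1))) K) :
    LamK K e 0 X = Lam 0 X := by
  rw [LamK_apply, Lam]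
  apply Finset.sum_congr rfl
  intro c _
  have : VK 0 c ↔ ((c 0 : Fin (e + 1)) : ℕ) = 0 := by
    constructor
    · intro h; exact h.2 0 rfl
    · intro h
      refine ⟨fun j hj => absurd hj (Nat.not_lt_zero _), fun j hj => ?_⟩
      have : j = 0 := Fin.ext (by simpa using hj)
      rw [this]; exact h
  rw [if_congr this rfl rfl, rho_zero]

theorem Lam_cyc (hq : q ≠ 0) (X Y : Matrix (Perm (Fin (e + 1))) (Perm (Fin (e + 1))) K)
    (hX : Comm q X) (hY : Comm q Y) : Lam 0 (X * Y) = Lam 0 (Y * X) := by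
  rw [← LamK_zero, ← LamK_zero]
  exact trace_all q (tg q e) e (LamK K e) (fun i hi => tg_sq hq i hi)
    (fun i hi => tg_braid hq i hi) (fun i j hi hj hij => tg_far hq i j hi hj hij)
    (fun k i hki hi X => LamK_F2 k i hki hi X) (fun k hk X hX => LamK_F0 k hk X hX)
    (fun k hk X hX => LamK_F1 k hk X hX) e 0 (by omega) X (comm_mem_HH hq hX) Y
    (comm_mem_HH hq hY)

theorem Lam_step (r : ℕ) (hr : r + 1 < e + 1)
    (X : Matrix (Perm (Fin (e + 1))) (Perm (Fin (e + 1))) K) :
    Lam ⟨r + 1, hr⟩ (Top q (e + 1) r hr * X) = q * Lam ⟨r, by omega⟩ (X * Top q (e + 1) r hr) := by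
  unfold Lam
  rw [Finset.mul_sum]
  symm
  apply Fintype.sum_equiv (Equiv.mulRight (sw (e + 1) r hr))
  intro c
  rw [Equiv.coe_mulRight]
  have e2 : (c * sw (e + 1) r hr) ⟨r, by omega⟩ = c ⟨r + 1, hr⟩ := by
    rw [Equiv.Perm.mul_apply, sw_left]
  have e3 : (c * sw (e + 1) r hr) ⟨r + 1, hr⟩ = c ⟨r, by omega⟩ := by
    rw [Equiv.Perm.mul_apply, sw_right]
  rw [e3]
  by_cases h0 : ((c ⟨r, by omega⟩ : Fin (e + 1)) : ℕ) = 0
  · rw [if_pos h0, if_pos h0, mul_Top_apply, Top_mul_apply]
    have hne : c ⟨r, by omega⟩ ≠ c ⟨r + 1, hr⟩ := by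
      intro hh; have := c.injective hh; simp at this
    have h1 : ((c ⟨r + 1, hr⟩ : Fin (e + 1)) : ℕ) ≠ 0 := by
      intro h2; exact hne (Fin.ext (by rw [h0, h2]))
    have hlt := (c ⟨r + 1, hr⟩).isLt
    rw [if_pos (by rw [Fin.lt_def, h0]; omega)]
    unfold tl
    have hasc : ((finRotate (e + 1))⁻¹ * (c * sw (e + 1) r hr)) ⟨r, by omega⟩ <
        ((finRotate (e + 1))⁻¹ * (c * sw (e + 1) r hr)) ⟨r + 1, hr⟩ := by
      rw [← rho_zero]
      simp only [Equiv.Perm.mul_apply, sw_left, sw_right, Fin.lt_def, rho_val]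
      rw [if_neg h1, if_pos h0]
      split_ifs <;> omega
    rw [if_pos hasc, mul_assoc, mul_sw_sw]
  · rw [if_neg h0, if_neg h0, mul_zero]

theorem Lam_shift (hq : q ≠ 0) (X : Matrix (Perm (Fin (e + 1))) (Perm (Fin (e + 1))) K)
    (hX : Comm q X) (r : Fin (e + 1)) : Lam r X = q ^ (r : ℕ) * Lam 0 X := by
  obtain ⟨r, hr⟩ := r
  induction r generalizing X with
  | zero => simp
  | succ r ih =>
    have hr' : r < e + 1 := by omega
    set Z := q⁻¹ • (Top q (e + 1) r hr * X - (q - 1) • X) with hZ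
    have CT := Top_comm q (d := e + 1) r hr
    have hZc : Comm q Z := (((CT).mul hX).sub (hX.smul _)).smul _
    have hTZ : Top q (e + 1) r hr * Z = X := by
      have hsq := tg_sq (q := q) (e := e) hq r (by omega)
      rw [tg_eq hr] at hsq
      rw [hZ, mul_smul_comm, mul_sub, mul_smul_comm, ← mul_assoc, hsq, add_mul, smul_mul_assoc,
        smul_mul_assoc, one_mul, add_sub_cancel_left, smul_smul, inv_mul_cancel₀ hq, one_smul]
    have h1 : Lam ⟨r + 1, hr⟩ X = q * Lam ⟨r, hr'⟩ (Z * Top q (e + 1) r hr) := by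
      rw [← Lam_step, hTZ]
    rw [h1, ih _ (hZc.mul CT) hr', Lam_cyc hq _ _ hZc CT, hTZ]
    simp only [pow_succ]
    ring

end cut

end Pool.Agent.Lib.MP_0e7911_co_h50
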