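import Mathlib

/-!
# A Markov type trace argument for Hecke algebras

Abstract version: an algebra with elements `t 0, ..., t (N-1)` satisfying the Hecke
relations and linear functionals `lam k` with a Markov type property are traces.
-/

set_option autoImplicit false

namespace Pool.Agent.Lib.MP_0e7911_co_h50

open Submodule

variable {K A : Type*} [Field K] [Ring A] [Algebra K A]

/-- The subalgebra generated by `t i`, `k ≤ i < N`. -/
def HH (K : Type*) {A : Type*} [Field K] [Ring A] [Algebra K A] (t : ℕ → A) (N k : ℕ) :
    Subalgebra K A :=
  Algebra.adjoin K {x | ∃ i, k ≤ i ∧ i < N ∧ x = t i}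

theorem t_mem_HH (t : ℕ → A) {N k i : ℕ} (h1 : k ≤ i) (h2 : i < N) : t i ∈ HH K t N k :=
  Algebra.subset_adjoin ⟨i, h1, h2, rfl⟩

theorem HH_mono (t : ℕ → A) {N k l : ℕ} (h : k ≤ l) : HH K t N l ≤ HH K t N k := by
  apply Algebra.adjoin_mono
  rintro x ⟨i, h1, h2, rfl⟩
  exact ⟨i, h.trans h1, h2, rfl⟩

/-- Elements of `HH (k+2)` commute with `t k`. -/
theorem HH_comm (t : ℕ → A) {N : ℕ}
    (hc : ∀ i j, i < N → j < N → i + 2 ≤ j → t i * t j = t j * t i)
    {k : ℕ} (hk : k < N) {x : A} (hx : x ∈ HH K t N (k + 2)) : t k * x = x * t k := by
  induction hx using Algebra.adjoin_induction with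
  | mem x hx =>
    obtain ⟨i, h1, h2, rfl⟩ := hx
    exact hc k i hk h2 h1
  | algebraMap r => exact (Algebra.commutes r (t k)).symm
  | add x y _ _ h1 h2 => rw [mul_add, add_mul, h1, h2]
  | mul x y _ _ h1 h2 => rw [← mul_assoc, h1, mul_assoc, h2, mul_assoc]

/-- The spanning set `H(k+1) ∪ H(k+1) t_k H(k+1)`. -/
def SS (K : Type*) {A : Type*} [Field K] [Ring A] [Algebra K A] (t : ℕ → A) (N k : ℕ) :
    Submodule K A :=
  span K ({x | x ∈ HH K t N (k + 1)} ∪
    {x | k < N ∧ ∃ a ∈ HH K t N (k + 1), ∃ b ∈ HH K t N (k + 1), x = a * t k * b})

theorem SS_left (q : K) (t : ℕ → A) {N : ℕ}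
    (hq : ∀ i, i < N → t i * t i = (q - 1) • t i + q • 1)
    (hb : ∀ i, i + 1 < N → t i * t (i + 1) * t i = t (i + 1) * t i * t (i + 1))
    (hc : ∀ i j, i < N → j < N → i + 2 ≤ j → t i * t j = t j * t i)
    {k : ℕ} (IH : ∀ x ∈ HH K t N (k + 1), x ∈ SS K t N (k + 1))
    {x : A} (hx : x ∈ HH K t N k) : ∀ s ∈ SS K t N k, x * s ∈ SS K t N k := by
  induction hx using Algebra.adjoin_induction with
  | mem x hx =>
    obtain ⟨i, h1, h2, rfl⟩ := hx
    intro s hs
    induction hs using Submodule.span_induction with
    | zero => rw [mul_zero]; exact zero_mem _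
    | add y z _ _ h3 h4 => rw [mul_add]; exact add_mem h3 h4
    | smul r y _ h3 => rw [mul_smul_comm]; exact smul_mem _ _ h3
    | mem s hs =>
      rcases Nat.lt_or_ge k i with hki | hki
      · -- i > k
        have hti : t i ∈ HH K t N (k + 1) := t_mem_HH t hki h2
        rcases hs with hs | ⟨hk, a, ha, b, hb', rfl⟩
        · exact subset_span (Or.inl (mul_mem hti hs))
        · exact subset_span (Or.inr ⟨hk, t i * a, mul_mem hti ha, b, hb', by
            simp only [mul_assoc]⟩)
      · have hik : i = k := le_antisymm hki h1
        subst hik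
        rcases hs with hs | ⟨hk, a, ha, b, hb', rfl⟩
        · exact subset_span (Or.inr ⟨h2, 1, one_mem _, s, hs, by simp⟩)
        · -- t_k a t_k b
          have key : ∀ a ∈ SS K t N (i + 1), ∀ b ∈ HH K t N (i + 1),
              t i * (a * t i * b) ∈ SS K t N i := by
            intro a ha b hb'
            induction ha using Submodule.span_induction with
            | zero => simp
            | add y z _ _ h3 h4 =>
              have : t i * ((y + z) * t i * b) = t i * (y * t i * b) + t i * (z * t i * b) := by
                noncomm_ring
              rw [this]; exact add_mem h3 h4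
            | smul r y _ h3 =>
              have : t i * ((r • y) * t i * b) = r • (t i * (y * t i * b)) := by
                simp only [smul_mul_assoc, mul_smul_comm]
              rw [this]; exact smul_mem _ _ h3
            | mem a ha =>
              rcases ha with ha | ⟨hk1, a1, ha1, a2, ha2, rfl⟩
              · have e1 : t i * (a * t i * b) = (q - 1) • (a * t i * b) + q • (a * b) := by
                  have := HH_comm t hc h2 ha
                  calc t i * (a * t i * b) = (t i * a) * t i * b := by simp only [mul_assoc]
                    _ = a * (t i * t i) * b := by rw [this]; simp only [mul_assoc]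
                    _ = _ := by
                      rw [hq i h2, mul_add, add_mul]
                      simp only [mul_smul_comm, smul_mul_assoc, mul_one]
                rw [e1]
                have ha' : a ∈ HH K t N (i + 1) := HH_mono t (by omega) ha
                refine add_mem (smul_mem _ _ (subset_span (Or.inr ⟨h2, a, ha', b, hb', rfl⟩)))
                  (smul_mem _ _ (subset_span (Or.inl (mul_mem ha' hb'))))
              · have c1 := HH_comm t hc h2 ha1
                have c2 := HH_comm t hc h2 ha2
                have e1 : t i * (a1 * t (i + 1) * a2 * t i * b) =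
                    (a1 * t (i + 1)) * t i * (t (i + 1) * a2 * b) := by
                  calc t i * (a1 * t (i + 1) * a2 * t i * b)
                      = (t i * a1) * t (i + 1) * (a2 * t i) * b := by simp only [mul_assoc]
                    _ = a1 * (t i * t (i + 1) * t i) * a2 * b := by
                      rw [c1, ← c2]; simp only [mul_assoc]
                    _ = _ := by rw [hb i hk1]; simp only [mul_assoc]
                rw [e1]
                have ha1' : a1 ∈ HH K t N (i + 1) := HH_mono t (by omega) ha1
                have ha2' : a2 ∈ HH K t N (i + 1) := HH_mono t (by omega) ha2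
                have ht : t (i + 1) ∈ HH K t N (i + 1) := t_mem_HH t le_rfl hk1
                exact subset_span (Or.inr ⟨h2, _, mul_mem ha1' ht, _,
                  mul_mem (mul_mem ht ha2') hb', rfl⟩)
          exact key a (IH a ha) b hb'
  | algebraMap r =>
    intro s hs
    rw [← Algebra.smul_def]
    exact smul_mem _ _ hs
  | add x y _ _ h1 h2 =>
    intro s hs
    rw [add_mul]; exact add_mem (h1 s hs) (h2 s hs)
  | mul x y _ _ h1 h2 =>
    intro s hs
    rw [mul_assoc]; exact h1 _ (h2 s hs)

theorem HH_le_SS (q : K) (t : ℕ → A) {N : ℕ}
    (hq : ∀ i, i < N → t i * t i = (q - 1) • t i + q • 1)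
    (hb : ∀ i, i + 1 < N → t i * t (i + 1) * t i = t (i + 1) * t i * t (i + 1))
    (hc : ∀ i j, i < N → j < N → i + 2 ≤ j → t i * t j = t j * t i) :
    ∀ (m k : ℕ), N ≤ k + m → ∀ x ∈ HH K t N k, x ∈ SS K t N k := by
  intro m
  induction m with
  | zero =>
    intro k hk x hx
    -- no generators
    refine subset_span (Or.inl ?_)
    have : ({x | ∃ i, k ≤ i ∧ i < N ∧ x = t i} : Set A) = ∅ := by
      refine Set.eq_empty_iff_forall_notMem.2 ?_
      rintro y ⟨i, h1, h2, _⟩; omega
    have h2 : HH K t N k = ⊥ := by unfold HH; rw [this, Algebra.adjoin_empty]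
    rw [h2] at hx
    exact (bot_le : (⊥ : Subalgebra K A) ≤ HH K t N (k + 1)) hx
  | succ m ih =>
    intro k hk x hx
    have IH := ih (k + 1) (by omega)
    have h1 : (1 : A) ∈ HH K t N (k + 1) := one_mem _
    have := SS_left q t hq hb hc IH hx 1 (subset_span (Or.inl h1))
    rwa [mul_one] at this

section trace

variable (q : K) (t : ℕ → A) (N : ℕ) (lam : ℕ → A →ₗ[K] K)

theorem F2ext (F2 : ∀ k i, k < i → i < N → ∀ x, lam k (x * t i) = lam k (t i * x))
    (k : ℕ) {y : A} (hy : y ∈ HH K t N (k + 1)) : ∀ x : A, lam k (x * y) = lam k (y * x) := by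
  induction hy using Algebra.adjoin_induction with
  | mem y hy =>
    obtain ⟨i, h1, h2, rfl⟩ := hy
    exact F2 k i h1 h2
  | algebraMap r => intro x; rw [Algebra.commutes]
  | add y z _ _ h1 h2 => intro x; rw [mul_add, add_mul, map_add, map_add, h1, h2]
  | mul y z _ _ h1 h2 =>
    intro x
    rw [← mul_assoc, h2 (x * y), ← mul_assoc, h1 (z * x), mul_assoc]

theorem trace_all
    (hq : ∀ i, i < N → t i * t i = (q - 1) • t i + q • 1)
    (hb : ∀ i, i + 1 < N → t i * t (i + 1) * t i = t (i + 1) * t i * t (i + 1))
    (hc : ∀ i j, i < N → j < N → i + 2 ≤ j → t i * t j = t j * t i)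
    (F2 : ∀ k i, k < i → i < N → ∀ x, lam k (x * t i) = lam k (t i * x))
    (F0 : ∀ k, k < N → ∀ x ∈ HH K t N (k + 1), lam k x = 0)
    (F1 : ∀ k, k < N → ∀ x ∈ HH K t N (k + 1), lam k (x * t k) = lam (k + 1) x) :
    ∀ (m k : ℕ), N ≤ k + m → ∀ x ∈ HH K t N k, ∀ y ∈ HH K t N k,
      lam k (x * y) = lam k (y * x) := by
  intro m
  induction m using Nat.strong_induction_on with
  | _ m IH =>
  intro k hk x hx
  rcases Nat.lt_or_ge k N with hkN | hkN
  swap
  · -- scalars
    have : ({x | ∃ i, k ≤ i ∧ i < N ∧ x = t i} : Set A) = ∅ := by
      refine Set.eq_empty_iff_forall_notMem.2 ?_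
      rintro y ⟨i, h1, h2, _⟩; omega
    have h2 : HH K t N k = ⊥ := by unfold HH; rw [this, Algebra.adjoin_empty]
    intro y hy
    rw [h2] at hx
    obtain ⟨r, rfl⟩ := Algebra.mem_bot.1 hx
    rw [Algebra.commutes]
  have hm : 0 < m := by omega
  have TR1 : ∀ x ∈ HH K t N (k + 1), ∀ y ∈ HH K t N (k + 1),
      lam (k + 1) (x * y) = lam (k + 1) (y * x) := IH (m - 1) (by omega) (k + 1) (by omega)
  have TR2 : ∀ x ∈ HH K t N (k + 2), ∀ y ∈ HH K t N (k + 2),
      lam (k + 2) (x * y) = lam (k + 2) (y * x) := by
    rcases Nat.lt_or_ge m 2 with h | h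
    · exact IH (m - 1) (by omega) (k + 2) (by omega)
    · exact IH (m - 2) (by omega) (k + 2) (by omega)
  have E2 := fun {y : A} (hy : y ∈ HH K t N (k + 1)) => F2ext t N lam F2 k hy
  have E2' := fun {y : A} (hy : y ∈ HH K t N (k + 2)) => F2ext t N lam F2 (k + 1) hy
  have hle := HH_le_SS q t hq hb hc N
  have mono12 : ∀ {z : A}, z ∈ HH K t N (k + 2) → z ∈ HH K t N (k + 1) := fun hz =>
    HH_mono t (by omega) hz
  have cm := fun {y : A} (hy : y ∈ HH K t N (k + 2)) => HH_comm t hc hkN hy
  -- the basic identity
  have Q : ∀ a ∈ HH K t N (k + 1), ∀ b ∈ HH K t N (k + 1),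
      lam k (t k * (a * t k * b)) = lam k (a * t k * b * t k) := by
    intro a ha b hb'
    have ha' := hle (k + 1) (by omega) a ha
    have hb'' := hle (k + 1) (by omega) b hb'
    clear ha
    induction ha' using Submodule.span_induction with
    | zero => simp
    | add y z _ _ h3 h4 =>
      have e1 : t k * ((y + z) * t k * b) = t k * (y * t k * b) + t k * (z * t k * b) := by
        noncomm_ring
      have e2 : (y + z) * t k * b * t k = y * t k * b * t k + z * t k * b * t k := by
        noncomm_ring
      rw [e1, e2, map_add, map_add, h3, h4]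
    | smul r y _ h3 =>
      simp only [smul_mul_assoc, mul_smul_comm, map_smul] at h3 ⊢
      rw [h3]
    | mem a ha =>
      clear hb'
      induction hb'' using Submodule.span_induction with
      | zero => simp
      | add y z _ _ h3 h4 =>
        have e1 : t k * (a * t k * (y + z)) = t k * (a * t k * y) + t k * (a * t k * z) := by
          noncomm_ring
        have e2 : a * t k * (y + z) * t k = a * t k * y * t k + a * t k * z * t k := by
          noncomm_ring
        rw [e1, e2, map_add, map_add, h3, h4]
      | smul r y _ h3 =>
        simp only [smul_mul_assoc, mul_smul_comm, map_smul] at h3 ⊢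
        rw [h3]
      | mem b hb2 =>
        rcases ha with ha | ⟨hk1, a1, ha1, a2, ha2, rfl⟩
        · rcases hb2 with hb2 | ⟨hk1, b1, hb1, b2, hb2, rfl⟩
          · have h1 := cm ha
            have h2 := cm hb2
            have e1 : t k * (a * t k * b) = a * t k * b * t k := by
              calc t k * (a * t k * b) = (t k * a) * t k * b := by simp only [mul_assoc]
                _ = a * t k * (t k * b) := by rw [h1]; simp only [mul_assoc]
                _ = _ := by rw [h2]; simp only [mul_assoc]
            rw [e1]
          · -- case (b)
            have h1 := cm ha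
            have h2 := cm hb1
            have h3 := cm hb2
            have tk1 : t (k + 1) ∈ HH K t N (k + 1) := t_mem_HH t le_rfl hk1
            have ha' := mono12 ha
            have hb1' := mono12 hb1
            have hb2' := mono12 hb2
            have eL : lam k (t k * (a * t k * (b1 * t (k + 1) * b2))) =
                (q - 1) * lam (k + 1) (t (k + 1) * b2 * a * b1) := by
              have e1 : t k * (a * t k * (b1 * t (k + 1) * b2)) =
                  (q - 1) • (a * t k * (b1 * t (k + 1) * b2)) +
                  q • (a * (b1 * t (k + 1) * b2)) := by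
                calc t k * (a * t k * (b1 * t (k + 1) * b2))
                    = (t k * a) * t k * (b1 * t (k + 1) * b2) := by simp only [mul_assoc]
                  _ = a * (t k * t k) * (b1 * t (k + 1) * b2) := by
                    rw [h1]; simp only [mul_assoc]
                  _ = _ := by
                    rw [hq k hkN, mul_add, add_mul]
                    simp only [mul_smul_comm, smul_mul_assoc, mul_one]
              rw [e1, map_add, map_smul, map_smul,
                F0 k hkN _ (mul_mem ha' (mul_mem (mul_mem hb1' tk1) hb2')), smul_zero, add_zero,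
                E2 (mul_mem (mul_mem hb1' tk1) hb2'), ← mul_assoc,
                F1 k hkN _ (mul_mem (mul_mem (mul_mem hb1' tk1) hb2') ha'), smul_eq_mul]
              congr 1
              have := E2' hb1 (t (k + 1) * b2 * a)
              rw [this]; simp only [mul_assoc]
            have eR : lam k (a * t k * (b1 * t (k + 1) * b2) * t k) =
                (q - 1) * lam (k + 1) (t (k + 1) * b2 * a * b1) := by
              have e1 : a * t k * (b1 * t (k + 1) * b2) * t k =
                  (a * b1 * t (k + 1) * t k) * (t (k + 1) * b2) := by
                calc a * t k * (b1 * t (k + 1) * b2) * t k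
                    = a * (t k * b1) * t (k + 1) * (b2 * t k) := by simp only [mul_assoc]
                  _ = a * b1 * (t k * t (k + 1) * t k) * b2 := by
                    rw [h2, ← h3]; simp only [mul_assoc]
                  _ = _ := by rw [hb k hk1]; simp only [mul_assoc]
              rw [e1, E2 (mul_mem tk1 hb2')]
              have e2 : t (k + 1) * b2 * (a * b1 * t (k + 1) * t k) =
                  (t (k + 1) * b2 * a * b1 * t (k + 1)) * t k := by simp only [mul_assoc]
              rw [e2, F1 k hkN _ (mul_mem (mul_mem (mul_mem (mul_mem tk1 hb2') ha') hb1') tk1),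
                TR1 _ (mul_mem (mul_mem (mul_mem tk1 hb2') ha') hb1') _ tk1]
              have e3 : t (k + 1) * (t (k + 1) * b2 * a * b1) =
                  (q - 1) • (t (k + 1) * b2 * a * b1) + q • (b2 * a * b1) := by
                calc t (k + 1) * (t (k + 1) * b2 * a * b1)
                    = (t (k + 1) * t (k + 1)) * (b2 * a * b1) := by simp only [mul_assoc]
                  _ = _ := by
                    rw [hq (k + 1) hk1, add_mul]
                    simp only [smul_mul_assoc, one_mul, mul_assoc]
              rw [e3, map_add, map_smul, map_smul,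
                F0 (k + 1) hk1 _ (mul_mem (mul_mem hb2 ha) hb1), smul_zero, add_zero,
                smul_eq_mul]
            rw [eL, eR]
        · rcases hb2 with hb2 | ⟨-, b1, hb1, b2, hb2, rfl⟩
          · -- case (c)
            have h1 := cm ha1
            have h2 := cm ha2
            have h3 := cm hb2
            have tk1 : t (k + 1) ∈ HH K t N (k + 1) := t_mem_HH t le_rfl hk1
            have ha1' := mono12 ha1
            have ha2' := mono12 ha2
            have hb' := mono12 hb2
            have eR : lam k (a1 * t (k + 1) * a2 * t k * b * t k) =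
                (q - 1) * lam (k + 1) (t (k + 1) * a2 * b * a1) := by
              have e1 : a1 * t (k + 1) * a2 * t k * b * t k =
                  (q - 1) • (a1 * t (k + 1) * a2 * b * t k) +
                  q • (a1 * t (k + 1) * a2 * b) := by
                calc a1 * t (k + 1) * a2 * t k * b * t k
                    = a1 * t (k + 1) * a2 * t k * (b * t k) := by simp only [mul_assoc]
                  _ = a1 * t (k + 1) * a2 * (t k * t k) * b := by
                    rw [← h3]; simp only [mul_assoc]
                  _ = (q - 1) • (a1 * t (k + 1) * a2 * (t k * b)) +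
                      q • (a1 * t (k + 1) * a2 * b) := by
                    rw [hq k hkN, mul_add, add_mul]
                    simp only [mul_smul_comm, smul_mul_assoc, mul_one, mul_assoc]
                  _ = _ := by rw [h3]; simp only [mul_assoc]
              rw [e1, map_add, map_smul, map_smul,
                F0 k hkN _ (mul_mem (mul_mem (mul_mem ha1' tk1) ha2') hb'), smul_zero, add_zero,
                F1 k hkN _ (mul_mem (mul_mem (mul_mem ha1' tk1) ha2') hb'), smul_eq_mul]
              congr 1
              have := E2' ha1 (t (k + 1) * a2 * b)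
              rw [this]; simp only [mul_assoc]
            have eL : lam k (t k * (a1 * t (k + 1) * a2 * t k * b)) =
                (q - 1) * lam (k + 1) (t (k + 1) * a2 * b * a1) := by
              have e1 : t k * (a1 * t (k + 1) * a2 * t k * b) =
                  (a1 * t (k + 1) * t k) * (t (k + 1) * a2 * b) := by
                calc t k * (a1 * t (k + 1) * a2 * t k * b)
                    = (t k * a1) * t (k + 1) * (a2 * t k) * b := by simp only [mul_assoc]
                  _ = a1 * (t k * t (k + 1) * t k) * a2 * b := by
                    rw [h1, ← h2]; simp only [mul_assoc]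
                  _ = _ := by rw [hb k hk1]; simp only [mul_assoc]
              rw [e1, E2 (mul_mem (mul_mem tk1 ha2') hb')]
              have e2 : t (k + 1) * a2 * b * (a1 * t (k + 1) * t k) =
                  (t (k + 1) * a2 * b * a1 * t (k + 1)) * t k := by simp only [mul_assoc]
              rw [e2, F1 k hkN _ (mul_mem (mul_mem (mul_mem (mul_mem tk1 ha2') hb') ha1') tk1),
                TR1 _ (mul_mem (mul_mem (mul_mem tk1 ha2') hb') ha1') _ tk1]
              have e3 : t (k + 1) * (t (k + 1) * a2 * b * a1) =
                  (q - 1) • (t (k + 1) * a2 * b * a1) + q • (a2 * b * a1) := by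
                calc t (k + 1) * (t (k + 1) * a2 * b * a1)
                    = (t (k + 1) * t (k + 1)) * (a2 * b * a1) := by simp only [mul_assoc]
                  _ = _ := by
                    rw [hq (k + 1) hk1, add_mul]
                    simp only [smul_mul_assoc, one_mul, mul_assoc]
              rw [e3, map_add, map_smul, map_smul,
                F0 (k + 1) hk1 _ (mul_mem (mul_mem ha2 hb2) ha1), smul_zero, add_zero,
                smul_eq_mul]
            rw [eL, eR]
          · -- case (d)
            have h1 := cm ha1
            have h2 := cm ha2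
            have h3 := cm hb1
            have h4 := cm hb2
            have tk1 : t (k + 1) ∈ HH K t N (k + 1) := t_mem_HH t le_rfl hk1
            have ha1' := mono12 ha1
            have ha2' := mono12 ha2
            have hb1' := mono12 hb1
            have hb2' := mono12 hb2
            have eL : lam k (t k * (a1 * t (k + 1) * a2 * t k * (b1 * t (k + 1) * b2))) =
                (q - 1) * lam (k + 1) (t (k + 1) * a2 * b1 * t (k + 1) * b2 * a1) +
                q * lam (k + 2) (b2 * a1 * (a2 * b1)) := by
              have e1 : t k * (a1 * t (k + 1) * a2 * t k * (b1 * t (k + 1) * b2)) =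
                  (a1 * t (k + 1) * t k) * (t (k + 1) * a2 * b1 * t (k + 1) * b2) := by
                calc t k * (a1 * t (k + 1) * a2 * t k * (b1 * t (k + 1) * b2))
                    = (t k * a1) * t (k + 1) * (a2 * t k) * (b1 * t (k + 1) * b2) := by
                      simp only [mul_assoc]
                  _ = a1 * (t k * t (k + 1) * t k) * a2 * (b1 * t (k + 1) * b2) := by
                    rw [h1, ← h2]; simp only [mul_assoc]
                  _ = _ := by rw [hb k hk1]; simp only [mul_assoc]
              have m1 : t (k + 1) * a2 * b1 * t (k + 1) * b2 ∈ HH K t N (k + 1) :=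
                mul_mem (mul_mem (mul_mem (mul_mem tk1 ha2') hb1') tk1) hb2'
              rw [e1, E2 m1]
              have e2 : t (k + 1) * a2 * b1 * t (k + 1) * b2 * (a1 * t (k + 1) * t k) =
                  (t (k + 1) * a2 * b1 * t (k + 1) * b2 * a1 * t (k + 1)) * t k := by
                simp only [mul_assoc]
              rw [e2, F1 k hkN _ (mul_mem (mul_mem m1 ha1') tk1),
                TR1 _ (mul_mem m1 ha1') _ tk1]
              have e3 : t (k + 1) * (t (k + 1) * a2 * b1 * t (k + 1) * b2 * a1) =
                  (q - 1) • (t (k + 1) * a2 * b1 * t (k + 1) * b2 * a1) +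
                  q • ((a2 * b1 * t (k + 1)) * (b2 * a1)) := by
                calc t (k + 1) * (t (k + 1) * a2 * b1 * t (k + 1) * b2 * a1)
                    = (t (k + 1) * t (k + 1)) * (a2 * b1 * t (k + 1) * b2 * a1) := by
                      simp only [mul_assoc]
                  _ = _ := by
                    rw [hq (k + 1) hk1, add_mul]
                    simp only [smul_mul_assoc, one_mul, mul_assoc]
              rw [e3, map_add, map_smul, map_smul, E2' (mul_mem hb2 ha1), ← mul_assoc,
                F1 (k + 1) hk1 _ (mul_mem (mul_mem hb2 ha1) (mul_mem ha2 hb1)),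
                smul_eq_mul, smul_eq_mul]
            have eR : lam k (a1 * t (k + 1) * a2 * t k * (b1 * t (k + 1) * b2) * t k) =
                (q - 1) * lam (k + 1) (t (k + 1) * b2 * a1 * t (k + 1) * a2 * b1) +
                q * lam (k + 2) (a2 * b1 * (b2 * a1)) := by
              have e1 : a1 * t (k + 1) * a2 * t k * (b1 * t (k + 1) * b2) * t k =
                  (a1 * t (k + 1) * a2 * b1 * t (k + 1) * t k) * (t (k + 1) * b2) := by
                calc a1 * t (k + 1) * a2 * t k * (b1 * t (k + 1) * b2) * t k
                    = a1 * t (k + 1) * a2 * (t k * b1) * t (k + 1) * (b2 * t k) := by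
                      simp only [mul_assoc]
                  _ = a1 * t (k + 1) * a2 * b1 * (t k * t (k + 1) * t k) * b2 := by
                    rw [h3, ← h4]; simp only [mul_assoc]
                  _ = _ := by rw [hb k hk1]; simp only [mul_assoc]
              rw [e1, E2 (mul_mem tk1 hb2')]
              have e2 : t (k + 1) * b2 * (a1 * t (k + 1) * a2 * b1 * t (k + 1) * t k) =
                  (t (k + 1) * b2 * a1 * t (k + 1) * a2 * b1 * t (k + 1)) * t k := by
                simp only [mul_assoc]
              have m1 : t (k + 1) * b2 * a1 * t (k + 1) * a2 * b1 ∈ HH K t N (k + 1) :=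
                mul_mem (mul_mem (mul_mem (mul_mem (mul_mem tk1 hb2') ha1') tk1) ha2') hb1'
              rw [e2, F1 k hkN _ (mul_mem m1 tk1), TR1 _ m1 _ tk1]
              have e3 : t (k + 1) * (t (k + 1) * b2 * a1 * t (k + 1) * a2 * b1) =
                  (q - 1) • (t (k + 1) * b2 * a1 * t (k + 1) * a2 * b1) +
                  q • ((b2 * a1 * t (k + 1)) * (a2 * b1)) := by
                calc t (k + 1) * (t (k + 1) * b2 * a1 * t (k + 1) * a2 * b1)
                    = (t (k + 1) * t (k + 1)) * (b2 * a1 * t (k + 1) * a2 * b1) := by
                      simp only [mul_assoc]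
                  _ = _ := by
                    rw [hq (k + 1) hk1, add_mul]
                    simp only [smul_mul_assoc, one_mul, mul_assoc]
              rw [e3, map_add, map_smul, map_smul, E2' (mul_mem ha2 hb1), ← mul_assoc,
                F1 (k + 1) hk1 _ (mul_mem (mul_mem ha2 hb1) (mul_mem hb2 ha1)),
                smul_eq_mul, smul_eq_mul]
            rw [eL, eR, TR2 _ (mul_mem ha2 hb1) _ (mul_mem hb2 ha1)]
            congr 2
            -- cyclic rotation
            have := TR1 (t (k + 1) * b2 * a1) (mul_mem (mul_mem tk1 hb2') ha1')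
              (t (k + 1) * a2 * b1) (mul_mem (mul_mem tk1 ha2') hb1')
            have e4 : t (k + 1) * b2 * a1 * t (k + 1) * a2 * b1 =
                t (k + 1) * b2 * a1 * (t (k + 1) * a2 * b1) := by simp only [mul_assoc]
            rw [e4, this]; simp only [mul_assoc]
  -- now conclude
  induction hx using Algebra.adjoin_induction with
  | mem x hx =>
    obtain ⟨i, h1, h2, rfl⟩ := hx
    intro y hy
    rcases Nat.lt_or_ge k i with hki | hki
    · exact (F2 k i hki h2 y).symm
    · have hik : i = k := le_antisymm hki h1
      subst hik
      have hy' := hle i (by omega) y hy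
      clear hy
      induction hy' using Submodule.span_induction with
      | zero => simp
      | add y z _ _ h3 h4 => rw [mul_add, add_mul, map_add, map_add, h3, h4]
      | smul r y _ h3 => rw [mul_smul_comm, smul_mul_assoc, map_smul, map_smul, h3]
      | mem y hy =>
        rcases hy with hy | ⟨-, a, ha, b, hb', rfl⟩
        · exact E2 hy (t i)
        · exact Q a ha b hb'
  | algebraMap r => intro y _; rw [Algebra.commutes]
  | add x y _ _ h1 h2 =>
    intro z hz
    rw [add_mul, mul_add, map_add, map_add, h1 z hz, h2 z hz]
  | mul x y hx hy h1 h2 =>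
    intro z hz
    have hx' : x ∈ HH K t N k := hx
    have hy' : y ∈ HH K t N k := hy
    rw [mul_assoc, h1 _ (mul_mem hy' hz), mul_assoc, h2 _ (mul_mem hz hx'), mul_assoc]

end trace

end Pool.Agent.Lib.MP_0e7911_co_h50
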