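import Pool.Agent.Lib.MP_0e7911_co_h50.Basic
import Pool.Agent.Lib.MP_0e7911_co_h50.Markov

/-!
# The cut functional is a trace on the commutant of the colour operators
-/

set_option autoImplicit false

namespace Pool.Agent.Lib.MP_0e7911_co_h50

open Finset Equiv

section basics

variable {d : ℕ}

theorem sw_val (i : ℕ) (h : i + 1 < d) (a : Fin d) :
    ((sw d i h a : Fin d) : ℕ) = if (a : ℕ) = i then i + 1 else if (a : ℕ) = i + 1 then i else a := by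
  unfold sw
  rw [Equiv.swap_apply_def]
  simp only [Fin.ext_iff]
  split_ifs <;> simp

theorem sw_sw (i : ℕ) (h : i + 1 < d) : sw d i h * sw d i h = 1 := Equiv.swap_mul_self _ _

theorem sw_sw' (i : ℕ) (h : i + 1 < d) (c : Perm (Fin d)) : sw d i h * (sw d i h * c) = c := by
  rw [← mul_assoc, sw_sw, one_mul]

theorem mul_sw_sw (i : ℕ) (h : i + 1 < d) (c : Perm (Fin d)) : c * sw d i h * sw d i h = c := by
  rw [mul_assoc, sw_sw, mul_one]

theorem sw_inv (i : ℕ) (h : i + 1 < d) : (sw d i h)⁻¹ = sw d i h := Equiv.swap_inv _ _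

theorem sw_ne_one (i : ℕ) (h : i + 1 < d) : sw d i h ≠ 1 := by
  intro h1
  have := sw_val i h ⟨i, by omega⟩
  rw [h1] at this
  simp at this

theorem sw_mul_ne (i : ℕ) (h : i + 1 < d) (c : Perm (Fin d)) : sw d i h * c ≠ c := by
  intro h1
  exact sw_ne_one i h (mul_eq_right.1 h1)

theorem mul_sw_ne (i : ℕ) (h : i + 1 < d) (c : Perm (Fin d)) : c * sw d i h ≠ c := by
  intro h1
  exact sw_ne_one i h (mul_eq_left.1 h1)

theorem sw_lt {i : ℕ} (h : i + 1 < d) {a b : Fin d} (h1 : ¬((a : ℕ) = i ∧ (b : ℕ) = i + 1))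
    (h2 : ¬((a : ℕ) = i + 1 ∧ (b : ℕ) = i)) : sw d i h a < sw d i h b ↔ a < b := by
  simp only [Fin.lt_def, sw_val]
  split_ifs <;> omega

theorem sw_left (i : ℕ) (h : i + 1 < d) : sw d i h ⟨i, by omega⟩ = ⟨i + 1, h⟩ :=
  Equiv.swap_apply_left _ _

theorem sw_right (i : ℕ) (h : i + 1 < d) : sw d i h ⟨i + 1, h⟩ = ⟨i, by omega⟩ :=
  Equiv.swap_apply_right _ _

end basics

section ops

variable {K : Type*} [CommRing K] (q : K) {d : ℕ}

/-- Position operator. -/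
def Top (d i : ℕ) (h : i + 1 < d) : Matrix (Perm (Fin d)) (Perm (Fin d)) K :=
  fun c' c =>
    (if c' = c * sw d i h then (if c ⟨i, by omega⟩ < c ⟨i + 1, h⟩ then 1 else q) else 0) +
    (if c' = c then (if c ⟨i, by omega⟩ < c ⟨i + 1, h⟩ then 0 else q - 1) else 0)

/-- action of `Top` on functions -/
def tl (i : ℕ) (h : i + 1 < d) (f : Perm (Fin d) → K) (c : Perm (Fin d)) : K :=
  if c ⟨i, by omega⟩ < c ⟨i + 1, h⟩ then q * f (c * sw d i h)
  else f (c * sw d i h) + (q - 1) * f c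

/-- action of `Rop` on functions -/
def tr (i : ℕ) (h : i + 1 < d) (f : Perm (Fin d) → K) (c : Perm (Fin d)) : K :=
  if c⁻¹ ⟨i, by omega⟩ < c⁻¹ ⟨i + 1, h⟩ then q * f (sw d i h * c)
  else f (sw d i h * c) + (q - 1) * f c

theorem Rop_eq (i : ℕ) (h : i + 1 < d) (c' c : Perm (Fin d)) :
    Rop q d i h c' c =
    (if c' = sw d i h * c then (if c⁻¹ ⟨i, by omega⟩ < c⁻¹ ⟨i + 1, h⟩ then 1 else q) else 0) +
    (if c' = c then (if c⁻¹ ⟨i, by omega⟩ < c⁻¹ ⟨i + 1, h⟩ then 0 else q - 1) else 0) := by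
  unfold Rop
  by_cases h1 : c' = sw d i h * c
  · have h2 : c' ≠ c := by rw [h1]; exact sw_mul_ne i h c
    rw [if_pos h1, if_pos h1, if_neg h2, add_zero]
  · rw [if_neg h1, if_neg h1, zero_add]

theorem mul_Top_apply (i : ℕ) (h : i + 1 < d) (X : Matrix (Perm (Fin d)) (Perm (Fin d)) K)
    (c' c : Perm (Fin d)) :
    (X * Top q d i h) c' c =
    if c ⟨i, by omega⟩ < c ⟨i + 1, h⟩ then X c' (c * sw d i h)
    else (q - 1) * X c' c + q * X c' (c * sw d i h) := by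
  rw [Matrix.mul_apply]
  simp only [Top, mul_add, Finset.sum_add_distrib, mul_ite, mul_zero, Finset.sum_ite_eq',
    Finset.mem_univ, if_true]
  split_ifs <;> ring

theorem Top_mul_apply (i : ℕ) (h : i + 1 < d) (X : Matrix (Perm (Fin d)) (Perm (Fin d)) K)
    (c' c : Perm (Fin d)) :
    (Top q d i h * X) c' c = tl q i h (fun x => X x c) c' := by
  rw [Matrix.mul_apply]
  have e1 : ∀ x : Perm (Fin d), (c' = x * sw d i h) ↔ (x = c' * sw d i h) := by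
    intro x
    constructor
    · rintro rfl; rw [mul_sw_sw]
    · rintro rfl; rw [mul_sw_sw]
  simp only [Top, add_mul, Finset.sum_add_distrib, ite_mul, zero_mul, e1, Finset.sum_ite_eq',
    Finset.sum_ite_eq, Finset.mem_univ, if_true]
  unfold tl
  have e2 : (c' * sw d i h) ⟨i, by omega⟩ = c' ⟨i + 1, h⟩ := by
    rw [Equiv.Perm.mul_apply, sw_left]
  have e3 : (c' * sw d i h) ⟨i + 1, h⟩ = c' ⟨i, by omega⟩ := by
    rw [Equiv.Perm.mul_apply, sw_right]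
  rw [e2, e3]
  have hne : c' ⟨i, by omega⟩ ≠ c' ⟨i + 1, h⟩ := by
    intro hh; have := c'.injective hh; simp at this
  rcases lt_or_gt_of_ne hne with hlt | hgt
  · simp only [if_pos hlt, if_neg (not_lt.2 hlt.le)]; ring
  · simp only [if_pos hgt, if_neg (not_lt.2 hgt.le)]; ring

theorem mul_Rop_apply (i : ℕ) (h : i + 1 < d) (X : Matrix (Perm (Fin d)) (Perm (Fin d)) K)
    (c' c : Perm (Fin d)) :
    (X * Rop q d i h) c' c =
    if c⁻¹ ⟨i, by omega⟩ < c⁻¹ ⟨i + 1, h⟩ then X c' (sw d i h * c)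
    else (q - 1) * X c' c + q * X c' (sw d i h * c) := by
  rw [Matrix.mul_apply]
  simp only [Rop_eq, mul_add, Finset.sum_add_distrib, mul_ite, mul_zero, Finset.sum_ite_eq',
    Finset.mem_univ, if_true]
  split_ifs <;> ring

theorem Rop_mul_apply (i : ℕ) (h : i + 1 < d) (X : Matrix (Perm (Fin d)) (Perm (Fin d)) K)
    (c' c : Perm (Fin d)) :
    (Rop q d i h * X) c' c = tr q i h (fun x => X x c) c' := by
  rw [Matrix.mul_apply]
  have e1 : ∀ x : Perm (Fin d), (c' = sw d i h * x) ↔ (x = sw d i h * c') := by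
    intro x
    constructor
    · rintro rfl; rw [sw_sw']
    · rintro rfl; rw [sw_sw']
  simp only [Rop_eq, add_mul, Finset.sum_add_distrib, ite_mul, zero_mul, e1, Finset.sum_ite_eq',
    Finset.sum_ite_eq, Finset.mem_univ, if_true]
  unfold tr
  have e2 : (sw d i h * c')⁻¹ ⟨i, by omega⟩ = c'⁻¹ ⟨i + 1, h⟩ := by
    rw [mul_inv_rev, Equiv.Perm.mul_apply, sw_inv, sw_left]
  have e3 : (sw d i h * c')⁻¹ ⟨i + 1, h⟩ = c'⁻¹ ⟨i, by omega⟩ := by
    rw [mul_inv_rev, Equiv.Perm.mul_apply, sw_inv, sw_right]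
  rw [e2, e3]
  have hne : c'⁻¹ ⟨i, by omega⟩ ≠ c'⁻¹ ⟨i + 1, h⟩ := by
    intro hh; have := c'⁻¹.injective hh; simp at this
  rcases lt_or_gt_of_ne hne with hlt | hgt
  · simp only [if_pos hlt, if_neg (not_lt.2 hlt.le)]; ring
  · simp only [if_pos hgt, if_neg (not_lt.2 hgt.le)]; ring

theorem tl_tr (i j : ℕ) (hi : i + 1 < d) (hj : j + 1 < d) (f : Perm (Fin d) → K)
    (c : Perm (Fin d)) : tl q i hi (tr q j hj f) c = tr q j hj (tl q i hi f) c := by
  have ci : ∀ c : Perm (Fin d), (c * sw d i hi) ⟨i, by omega⟩ = c ⟨i + 1, hi⟩ := fun c => by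
    rw [Equiv.Perm.mul_apply, sw_left]
  have ci' : ∀ c : Perm (Fin d), (c * sw d i hi) ⟨i + 1, hi⟩ = c ⟨i, by omega⟩ := fun c => by
    rw [Equiv.Perm.mul_apply, sw_right]
  have cj : ∀ c : Perm (Fin d), (sw d j hj * c)⁻¹ ⟨j, by omega⟩ = c⁻¹ ⟨j + 1, hj⟩ := fun c => by
    rw [mul_inv_rev, Equiv.Perm.mul_apply, sw_inv, sw_left]
  have cj' : ∀ c : Perm (Fin d), (sw d j hj * c)⁻¹ ⟨j + 1, hj⟩ = c⁻¹ ⟨j, by omega⟩ := fun c => by
    rw [mul_inv_rev, Equiv.Perm.mul_apply, sw_inv, sw_right]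
  by_cases hA : c ⟨i, by omega⟩ = ⟨j, by omega⟩ ∧ c ⟨i + 1, hi⟩ = ⟨j + 1, hj⟩
  · -- swapped pair, ascending
    obtain ⟨h1, h2⟩ := hA
    have i1 : c⁻¹ ⟨j, by omega⟩ = ⟨i, by omega⟩ := by rw [← h1]; simp
    have i2 : c⁻¹ ⟨j + 1, hj⟩ = ⟨i + 1, hi⟩ := by rw [← h2]; simp
    have hcs : c * sw d i hi = sw d j hj * c := by
      unfold sw; rw [Equiv.mul_swap_eq_swap_mul, h1, h2]
    have hlt1 : (⟨j, by omega⟩ : Fin d) < ⟨j + 1, hj⟩ := by simp [Fin.lt_def]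
    have hlt2 : ¬ ((⟨j + 1, hj⟩ : Fin d) < ⟨j, by omega⟩) := not_lt.2 hlt1.le
    have hlt3 : (⟨i, by omega⟩ : Fin d) < ⟨i + 1, hi⟩ := by simp [Fin.lt_def]
    have hlt4 : ¬ ((⟨i + 1, hi⟩ : Fin d) < ⟨i, by omega⟩) := not_lt.2 hlt3.le
    have hss' : sw d j hj * c * sw d i hi = c := by rw [← hcs, mul_sw_sw]
    have o3 : (sw d j hj * c) ⟨i, by omega⟩ = ⟨j + 1, hj⟩ := by rw [← hcs, ci, h2]
    have o4 : (sw d j hj * c) ⟨i + 1, hi⟩ = ⟨j, by omega⟩ := by rw [← hcs, ci', h1]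
    unfold tl tr
    simp only [hcs, cj, cj', o3, o4, h1, h2, i1, i2, if_pos hlt1, if_neg hlt2, if_pos hlt3,
      if_neg hlt4, sw_sw', hss']
  · by_cases hB : c ⟨i, by omega⟩ = ⟨j + 1, hj⟩ ∧ c ⟨i + 1, hi⟩ = ⟨j, by omega⟩
    · obtain ⟨h1, h2⟩ := hB
      have i1 : c⁻¹ ⟨j, by omega⟩ = ⟨i + 1, hi⟩ := by rw [← h2]; simp
      have i2 : c⁻¹ ⟨j + 1, hj⟩ = ⟨i, by omega⟩ := by rw [← h1]; simp
      have hcs : c * sw d i hi = sw d j hj * c := by
        unfold sw; rw [Equiv.mul_swap_eq_swap_mul, h1, h2, Equiv.swap_comm]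
      have hlt1 : (⟨j, by omega⟩ : Fin d) < ⟨j + 1, hj⟩ := by simp [Fin.lt_def]
      have hlt2 : ¬ ((⟨j + 1, hj⟩ : Fin d) < ⟨j, by omega⟩) := not_lt.2 hlt1.le
      have hlt3 : (⟨i, by omega⟩ : Fin d) < ⟨i + 1, hi⟩ := by simp [Fin.lt_def]
      have hlt4 : ¬ ((⟨i + 1, hi⟩ : Fin d) < ⟨i, by omega⟩) := not_lt.2 hlt3.le
      have hss' : sw d j hj * c * sw d i hi = c := by rw [← hcs, mul_sw_sw]
      have o3 : (sw d j hj * c) ⟨i, by omega⟩ = ⟨j, by omega⟩ := by rw [← hcs, ci, h2]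
      have o4 : (sw d j hj * c) ⟨i + 1, hi⟩ = ⟨j + 1, hj⟩ := by rw [← hcs, ci', h1]
      unfold tl tr
      simp only [hcs, cj, cj', o3, o4, h1, h2, i1, i2, if_pos hlt1, if_neg hlt2, if_pos hlt3,
        if_neg hlt4, sw_sw', hss']
    · -- generic
      have o1 : ((c * sw d i hi)⁻¹ ⟨j, by omega⟩ < (c * sw d i hi)⁻¹ ⟨j + 1, hj⟩) ↔
          (c⁻¹ ⟨j, by omega⟩ < c⁻¹ ⟨j + 1, hj⟩) := by
        rw [mul_inv_rev, Equiv.Perm.mul_apply, Equiv.Perm.mul_apply, sw_inv]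
        apply sw_lt
        · rintro ⟨h1, h2⟩
          apply hA
          have h1' : c⁻¹ ⟨j, by omega⟩ = ⟨i, by omega⟩ := Fin.ext h1
          have h2' : c⁻¹ ⟨j + 1, hj⟩ = ⟨i + 1, hi⟩ := Fin.ext h2
          rw [← h1', ← h2']; simp
        · rintro ⟨h1, h2⟩
          apply hB
          have h1' : c⁻¹ ⟨j, by omega⟩ = ⟨i + 1, hi⟩ := Fin.ext h1
          have h2' : c⁻¹ ⟨j + 1, hj⟩ = ⟨i, by omega⟩ := Fin.ext h2
          rw [← h1', ← h2']; simp
      have o2 : ((sw d j hj * c) ⟨i, by omega⟩ < (sw d j hj * c) ⟨i + 1, hi⟩) ↔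
          (c ⟨i, by omega⟩ < c ⟨i + 1, hi⟩) := by
        rw [Equiv.Perm.mul_apply, Equiv.Perm.mul_apply]
        apply sw_lt
        · rintro ⟨h1, h2⟩; exact hA ⟨Fin.ext h1, Fin.ext h2⟩
        · rintro ⟨h1, h2⟩; exact hB ⟨Fin.ext h1, Fin.ext h2⟩
      unfold tl tr
      simp only [o1, o2, ← mul_assoc]
      split_ifs <;> ring

theorem Top_comm (i : ℕ) (h : i + 1 < d) : Comm q (Top q d i h) := by
  intro j hj
  have e1 : Top q d i h * Rop q d j hj = Top q d i h * (Rop q d j hj * 1) := by rw [mul_one]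
  have e2 : Rop q d j hj * Top q d i h = Rop q d j hj * (Top q d i h * 1) := by rw [mul_one]
  rw [e1, e2]
  ext c' c
  rw [Top_mul_apply, Rop_mul_apply]
  have f1 : (fun x => (Rop q d j hj * (1 : Matrix (Perm (Fin d)) (Perm (Fin d)) K)) x c) =
      tr q j hj (fun x => (1 : Matrix (Perm (Fin d)) (Perm (Fin d)) K) x c) := by
    funext x; rw [Rop_mul_apply]
  have f2 : (fun x => (Top q d i h * (1 : Matrix (Perm (Fin d)) (Perm (Fin d)) K)) x c) =
      tl q i h (fun x => (1 : Matrix (Perm (Fin d)) (Perm (Fin d)) K) x c) := by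
    funext x; rw [Top_mul_apply]
  rw [f1, f2, tl_tr]

end ops

section comm

variable {K : Type*} [CommRing K] {q : K} {d : ℕ}
  {X Y : Matrix (Perm (Fin d)) (Perm (Fin d)) K}

theorem Comm.mul (hX : Comm q X) (hY : Comm q Y) : Comm q (X * Y) := by
  intro i h
  rw [mul_assoc, hY i h, ← mul_assoc, hX i h, mul_assoc]

theorem Comm.add (hX : Comm q X) (hY : Comm q Y) : Comm q (X + Y) := by
  intro i h
  rw [add_mul, hX i h, hY i h, mul_add]

theorem Comm.sub (hX : Comm q X) (hY : Comm q Y) : Comm q (X - Y) := by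
  intro i h
  rw [sub_mul, hX i h, hY i h, mul_sub]

theorem Comm.smul (r : K) (hX : Comm q X) : Comm q (r • X) := by
  intro i h
  rw [smul_mul_assoc, hX i h, mul_smul_comm]

theorem Comm.one : Comm q (1 : Matrix (Perm (Fin d)) (Perm (Fin d)) K) := by
  intro i h
  rw [one_mul, mul_one]

end comm

end Pool.Agent.Lib.MP_0e7911_co_h50
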