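import Pool.Agent.Lib.MP_0e7911_co_h50.Hecke

/-!
# `Lam 0` is a trace on the commutant and `Lam r = q^r Lam 0`
-/

set_option autoImplicit false

namespace Pool.Agent.Lib.MP_0e7911_co_h50

open Finset Equiv

section induct

theorem perm_induct_left {e : ℕ} {p : Perm (Fin (e + 1)) → Prop} (h1 : p 1)
    (hs : ∀ (i : ℕ) (h : i + 1 < e + 1) (c : Perm (Fin (e + 1))), p c → p (sw (e + 1) i h * c))
    (c : Perm (Fin (e + 1))) : p c := by
  have hc : c ∈ Submonoid.closure (Set.range fun i : Fin e ↦ swap i.castSucc i.succ) := by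
    rw [Equiv.Perm.mclosure_swap_castSucc_succ]; trivial
  induction hc using Submonoid.closure_induction_left with
  | one => exact h1
  | mul_left x hx y _ hy =>
    obtain ⟨i, rfl⟩ := hx
    exact hs i (by omega) y hy

theorem perm_induct_right {e : ℕ} {p : Perm (Fin (e + 1)) → Prop} (h1 : p 1)
    (hs : ∀ (i : ℕ) (h : i + 1 < e + 1) (c : Perm (Fin (e + 1))), p c → p (c * sw (e + 1) i h))
    (c : Perm (Fin (e + 1))) : p c := by
  have hc : c ∈ Submonoid.closure (Set.range fun i : Fin e ↦ swap i.castSucc i.succ) := by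
    rw [Equiv.Perm.mclosure_swap_castSucc_succ]; trivial
  induction hc using Submonoid.closure_induction_right with
  | one => exact h1
  | mul_right x _ y hy hx =>
    obtain ⟨i, rfl⟩ := hy
    exact hs i (by omega) x hx

end induct

section commutant

variable {K : Type*} [Field K] {q : K} {e : ℕ}

/-- An element of the commutant is determined by its column at `1`. -/
theorem comm_ext (hq : q ≠ 0) {X Y : Matrix (Perm (Fin (e + 1))) (Perm (Fin (e + 1))) K}
    (hX : Comm q X) (hY : Comm q Y) (h : ∀ c', X c' 1 = Y c' 1) : X = Y := by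
  have hZ := hX.sub hY
  have key : ∀ c : Perm (Fin (e + 1)), ∀ c', (X - Y) c' c = 0 := by
    intro c
    induction c using perm_induct_left with
    | h1 => intro c'; rw [Matrix.sub_apply, h c', sub_self]
    | hs i hi c ih =>
      intro c'
      have h1 := congrFun (congrFun (hZ i hi) c') c
      rw [mul_Rop_apply, Rop_mul_apply] at h1
      have h2 : tr q i hi (fun x => (X - Y) x c) c' = 0 := by
        unfold tr; simp only [ih]; split_ifs <;> ring
      rw [h2] at h1
      split_ifs at h1 with h3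
      · exact h1
      · rw [ih, mul_zero, zero_add] at h1
        exact (mul_eq_zero.1 h1).resolve_left hq
  ext c' c
  have := key c c'
  rw [Matrix.sub_apply] at this
  exact sub_eq_zero.1 this

/-- the generators -/
def tg (q : K) (e i : ℕ) : Matrix (Perm (Fin (e + 1))) (Perm (Fin (e + 1))) K :=
  if h : i + 1 < e + 1 then Top q (e + 1) i h else 0

theorem tg_eq {i : ℕ} (h : i + 1 < e + 1) : tg q e i = Top q (e + 1) i h := dif_pos h

theorem tg_comm (i : ℕ) : Comm q (tg q e i) := by
  unfold tg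
  split_ifs with h
  · exact Top_comm q i h
  · intro j hj; rw [zero_mul, mul_zero]

/-- column of a product `t_i X` at `c`, when the column of `X` is a basis vector -/
theorem Top_col_asc {i : ℕ} (h : i + 1 < e + 1)
    {X : Matrix (Perm (Fin (e + 1))) (Perm (Fin (e + 1))) K} {c0 c : Perm (Fin (e + 1))}
    (hX : ∀ x, X x c0 = if x = c then 1 else 0)
    (hc : c ⟨i, by omega⟩ < c ⟨i + 1, h⟩) (x : Perm (Fin (e + 1))) :
    (Top q (e + 1) i h * X) x c0 = if x = c * sw (e + 1) i h then 1 else 0 := by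
  rw [Top_mul_apply]
  unfold tl
  simp only [hX]
  by_cases h1 : x = c * sw (e + 1) i h
  · subst h1
    have e2 : (c * sw (e + 1) i h) ⟨i, by omega⟩ = c ⟨i + 1, h⟩ := by
      rw [Equiv.Perm.mul_apply, sw_left]
    have e3 : (c * sw (e + 1) i h) ⟨i + 1, h⟩ = c ⟨i, by omega⟩ := by
      rw [Equiv.Perm.mul_apply, sw_right]
    rw [e2, e3, if_neg (not_lt.2 hc.le), mul_sw_sw, if_pos rfl, if_neg (mul_sw_ne i h c),
      if_pos rfl]
    ring
  · have h2 : ¬ (x * sw (e + 1) i h = c) := by
      intro h3; apply h1; rw [← h3, mul_sw_sw]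
    rw [if_neg h2, if_neg h1]
    by_cases h3 : x = c
    · subst h3
      rw [if_pos hc]; ring
    · rw [if_neg h3]; split_ifs <;> ring

theorem one_col (x : Perm (Fin (e + 1))) :
    (1 : Matrix (Perm (Fin (e + 1))) (Perm (Fin (e + 1))) K) x 1 = if x = 1 then 1 else 0 := by
  rw [Matrix.one_apply]

theorem tg_sq (hq : q ≠ 0) (i : ℕ) (hi : i < e) :
    tg q e i * tg q e i = (q - 1) • tg q e i + q • 1 := by
  have h : i + 1 < e + 1 := by omega
  rw [tg_eq h]
  apply comm_ext hq ((Top_comm q i h).mul (Top_comm q i h))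
    (((Top_comm q i h).smul _).add (Comm.one.smul _))
  intro x
  have c1 : ∀ x, (Top q (e + 1) i h) x 1 = if x = sw (e + 1) i h then 1 else 0 := by
    intro x
    have := Top_col_asc (q := q) h (X := 1) (c0 := 1) (c := 1) (fun x => one_col x)
      (by simp [Fin.lt_def]) x
    rwa [mul_one, one_mul] at this
  rw [Top_mul_apply, Matrix.add_apply, Matrix.smul_apply, Matrix.smul_apply, one_col, smul_eq_mul,
    smul_eq_mul]
  unfold tl
  simp only [c1]
  have k1 : (x * sw (e + 1) i h = sw (e + 1) i h) ↔ x = 1 := by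
    constructor
    · intro h1; exact mul_eq_right.1 h1
    · rintro rfl; rw [one_mul]
  simp only [k1]
  by_cases h1 : x = 1
  · subst h1
    have : ¬ ((1 : Perm (Fin (e + 1))) = sw (e + 1) i h) := fun h2 => sw_ne_one i h h2.symm
    rw [if_pos (by simp [Fin.lt_def]), if_pos rfl, if_neg this]
    ring
  · by_cases h2 : x = sw (e + 1) i h
    · subst h2
      rw [if_neg (by rw [sw_left, sw_right]; simp [Fin.lt_def]), if_neg h1, if_pos rfl]
      ring
    · rw [if_neg h1, if_neg h2]; split_ifs <;> ring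

theorem tg_braid (hq : q ≠ 0) (i : ℕ) (hi : i + 1 < e) :
    tg q e i * tg q e (i + 1) * tg q e i = tg q e (i + 1) * tg q e i * tg q e (i + 1) := by
  have h : i + 1 < e + 1 := by omega
  have h' : i + 1 + 1 < e + 1 := by omega
  rw [tg_eq h, tg_eq h']
  have C1 := Top_comm q (d := e + 1) i h
  have C2 := Top_comm q (d := e + 1) (i + 1) h'
  apply comm_ext hq ((C1.mul C2).mul C1) ((C2.mul C1).mul C2)
  intro x
  rw [mul_assoc, mul_assoc]
  have c1 : ∀ (j : ℕ) (hj : j + 1 < e + 1) (x), (Top q (e + 1) j hj) x 1 =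
      if x = sw (e + 1) j hj then 1 else 0 := by
    intro j hj x
    have := Top_col_asc (q := q) hj (X := 1) (c0 := 1) (c := 1) (fun x => one_col x)
      (by simp [Fin.lt_def]) x
    rwa [mul_one, one_mul] at this
  have a1 := Top_col_asc (q := q) h' (X := Top q (e + 1) i h) (c0 := 1) (c := sw (e + 1) i h)
    (c1 i h) (by simp only [Fin.lt_def, sw_val]; split_ifs <;> omega)
  have a2 := Top_col_asc (q := q) h (c0 := 1) a1
    (by simp only [Equiv.Perm.mul_apply, Fin.lt_def, sw_val]; split_ifs <;> omega)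
  have b1 := Top_col_asc (q := q) h (X := Top q (e + 1) (i + 1) h') (c0 := 1)
    (c := sw (e + 1) (i + 1) h')
    (c1 (i + 1) h') (by simp only [Fin.lt_def, sw_val]; split_ifs <;> omega)
  have b2 := Top_col_asc (q := q) h' (c0 := 1) b1
    (by simp only [Equiv.Perm.mul_apply, Fin.lt_def, sw_val]; split_ifs <;> omega)
  rw [a2 x, b2 x]
  have e1 : sw (e + 1) i h * sw (e + 1) (i + 1) h' * sw (e + 1) i h =
      sw (e + 1) (i + 1) h' * sw (e + 1) i h * sw (e + 1) (i + 1) h' := by
    unfold sw
    have A := Equiv.swap_mul_swap_mul_swap (x := (⟨i, by omega⟩ : Fin (e + 1)))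
      (y := ⟨i + 1, h⟩) (z := ⟨i + 1 + 1, h'⟩) (by simp only [Ne, Fin.ext_iff]; omega)
      (by simp only [Ne, Fin.ext_iff]; omega)
    have B := Equiv.swap_mul_swap_mul_swap (x := (⟨i + 1 + 1, h'⟩ : Fin (e + 1)))
      (y := ⟨i + 1, h⟩) (z := ⟨i, by omega⟩) (by simp only [Ne, Fin.ext_iff]; omega)
      (by simp only [Ne, Fin.ext_iff]; omega)
    rw [A, Equiv.swap_comm (⟨i + 1 + 1, h'⟩ : Fin (e + 1)) ⟨i, by omega⟩, ← B,
      Equiv.swap_comm (⟨i + 1, h⟩ : Fin (e + 1)) ⟨i, by omega⟩,
      Equiv.swap_comm (⟨i + 1 + 1, h'⟩ : Fin (e + 1)) ⟨i + 1, h⟩]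
  rw [e1]

theorem tg_far (hq : q ≠ 0) (i j : ℕ) (hi : i < e) (hj : j < e) (hij : i + 2 ≤ j) :
    tg q e i * tg q e j = tg q e j * tg q e i := by
  have h : i + 1 < e + 1 := by omega
  have h' : j + 1 < e + 1 := by omega
  rw [tg_eq h, tg_eq h']
  have C1 := Top_comm q (d := e + 1) i h
  have C2 := Top_comm q (d := e + 1) j h'
  apply comm_ext hq (C1.mul C2) (C2.mul C1)
  intro x
  have c1 : ∀ (j : ℕ) (hj : j + 1 < e + 1) (x), (Top q (e + 1) j hj) x 1 =
      if x = sw (e + 1) j hj then 1 else 0 := by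
    intro j hj x
    have := Top_col_asc (q := q) hj (X := 1) (c0 := 1) (c := 1) (fun x => one_col x)
      (by simp [Fin.lt_def]) x
    rwa [mul_one, one_mul] at this
  have a1 := Top_col_asc (q := q) h (X := Top q (e + 1) j h') (c0 := 1) (c := sw (e + 1) j h')
    (c1 j h') (by simp only [Fin.lt_def, sw_val]; split_ifs <;> omega)
  have b1 := Top_col_asc (q := q) h' (X := Top q (e + 1) i h) (c0 := 1) (c := sw (e + 1) i h)
    (c1 i h) (by simp only [Fin.lt_def, sw_val]; split_ifs <;> omega)
  rw [a1 x, b1 x]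
  have e1 : sw (e + 1) j h' * sw (e + 1) i h = sw (e + 1) i h * sw (e + 1) j h' := by
    unfold sw
    apply Equiv.Perm.Disjoint.commute
    exact Equiv.Perm.disjoint_swap_swap (by simp [Fin.ext_iff]; omega)
  rw [e1]

/-- every basis vector is reached from `1` by an element of the position algebra -/
theorem exists_reach (hq : q ≠ 0) (c : Perm (Fin (e + 1))) :
    ∃ H ∈ HH K (tg q e) e 0, Comm q H ∧ ∀ x, H x 1 = if x = c then 1 else 0 := by
  induction c using perm_induct_right with
  | h1 => exact ⟨1, one_mem _, Comm.one, one_col⟩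
  | hs i hi c ih =>
    obtain ⟨H, hH, hC, hc⟩ := ih
    have hm : tg q e i ∈ HH K (tg q e) e 0 := t_mem_HH _ (Nat.zero_le _) (by omega)
    by_cases hasc : c ⟨i, by omega⟩ < c ⟨i + 1, hi⟩
    · refine ⟨tg q e i * H, mul_mem hm hH, (tg_comm i).mul hC, ?_⟩
      rw [tg_eq hi]
      exact Top_col_asc hi hc hasc
    · refine ⟨q⁻¹ • (tg q e i * H - (q - 1) • H), ?_, ?_, ?_⟩
      · exact Subalgebra.smul_mem _ (sub_mem (mul_mem hm hH) (Subalgebra.smul_mem _ hH _)) _
      · exact (((tg_comm i).mul hC).sub (hC.smul _)).smul _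
      · intro x
        rw [Matrix.smul_apply, Matrix.sub_apply, Matrix.smul_apply, tg_eq hi, Top_mul_apply]
        unfold tl
        simp only [hc, smul_eq_mul]
        have k1 : (x * sw (e + 1) i hi = c) ↔ x = c * sw (e + 1) i hi := by
          constructor
          · rintro rfl; rw [mul_sw_sw]
          · rintro rfl; rw [mul_sw_sw]
        simp only [k1]
        by_cases h1 : x = c * sw (e + 1) i hi
        · subst h1
          have e2 : (c * sw (e + 1) i hi) ⟨i, by omega⟩ = c ⟨i + 1, hi⟩ := by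
            rw [Equiv.Perm.mul_apply, sw_left]
          have e3 : (c * sw (e + 1) i hi) ⟨i + 1, hi⟩ = c ⟨i, by omega⟩ := by
            rw [Equiv.Perm.mul_apply, sw_right]
          have hne : c ⟨i, by omega⟩ ≠ c ⟨i + 1, hi⟩ := by
            intro hh; have := c.injective hh; simp at this
          have hgt : c ⟨i + 1, hi⟩ < c ⟨i, by omega⟩ :=
            lt_of_le_of_ne (not_lt.1 hasc) hne.symm
          rw [e2, e3, if_pos hgt, if_pos rfl, if_neg (mul_sw_ne i hi c)]
          field_simp
          ring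
        · rw [if_neg h1]
          by_cases h3 : x = c
          · subst h3
            rw [if_neg hasc, if_pos rfl]; ring
          · rw [if_neg h3]; split_ifs <;> ring

theorem comm_mem_HH (hq : q ≠ 0) {X : Matrix (Perm (Fin (e + 1))) (Perm (Fin (e + 1))) K}
    (hX : Comm q X) : X ∈ HH K (tg q e) e 0 := by
  choose H hH hC hc using fun c : Perm (Fin (e + 1)) => exists_reach (K := K) hq c
  have hsum : Comm q (∑ c : Perm (Fin (e + 1)), X c 1 • H c) := by
    intro i h
    rw [Finset.sum_mul, Finset.mul_sum]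
    exact Finset.sum_congr rfl (fun c _ => ((hC c).smul _) i h)
  have : X = ∑ c : Perm (Fin (e + 1)), X c 1 • H c := by
    apply comm_ext hq hX hsum
    intro x
    rw [Matrix.sum_apply]
    simp only [Matrix.smul_apply, hc, smul_eq_mul, mul_ite, mul_one, mul_zero,
      Finset.sum_ite_eq, Finset.mem_univ, if_true]
  rw [this]
  exact sum_mem (fun c _ => Subalgebra.smul_mem _ (hH c) _)

end commutant

end Pool.Agent.Lib.MP_0e7911_co_h50
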