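import Pool.Agent.Lib.MP_0e7911_co_h50.Basic
import Pool.Agent.Lib.MP_0e7911_co_h56.DinvDefs

/-!
# Key level definitions (module M7)

`α` = linear order of keys; `f : Fin (b+1) → Fin (e+1) → α`, `f ι t` = key of the
element of class `ι` (relative to the first one) in round `t`, i.e. at position `ι + (b+1) t`.
-/

set_option autoImplicit false

namespace Pool.Agent.Lib.MP_0e7911_co_h50

open Finset

/-- cyclic adjacency at key level -/
def AdjK {α : Type*} (R : α → α → Prop) {b e : ℕ} (f : Fin (b + 1) → Fin (e + 1) → α) : Prop :=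
  (∀ (i : Fin b) (t : Fin (e + 1)), R (f i.castSucc t) (f i.succ t)) ∧
  (∀ t : Fin (e + 1), R (f (Fin.last b) t) (f 0 (t + 1)))

instance {α : Type*} (R : α → α → Prop) [DecidableRel R] {b e : ℕ}
    (f : Fin (b + 1) → Fin (e + 1) → α) : Decidable (AdjK R f) := by
  unfold AdjK; infer_instance

/-- the statistic at key level -/
def TK {α : Type*} [LinearOrder α] (R : α → α → Prop) [DecidableRel R] {b e : ℕ}
    (f : Fin (b + 1) → Fin (e + 1) → α) : ℕ :=
  (∑ i, (univ.filter (fun st : Fin (e + 1) × Fin (e + 1) =>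
      st.1 < st.2 ∧ f i st.2 < f i st.1)).card) +
  (∑ i : Fin b, (univ.filter (fun st : Fin (e + 1) × Fin (e + 1) =>
      st.1 < st.2 ∧ R (f i.castSucc st.2) (f i.succ st.1))).card) +
  (univ.filter (fun st : Fin (e + 1) × Fin (e + 1) =>
      st.1 ≤ st.2 ∧ R (f (Fin.last b) st.2) (f 0 st.1))).card

/-- the board between the classes `i` and `i+1` of a profile `F` -/
def board {α : Type*} (R : α → α → Prop) [DecidableRel R] {e : ℕ} (F : ℕ → Fin (e + 1) → α)
    (i : ℕ) (r : Fin (e + 1)) : ℕ :=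
  (univ.filter (fun r' : Fin (e + 1) => R (F i r) (F (i + 1) r'))).card

/-- all key sequences with profile `F`, starting in class `j` -/
def Seqs {α : Type*} [LinearOrder α] {b e : ℕ} (F : ℕ → Fin (e + 1) → α) (j : ℕ) :
    Finset (Fin (b + 1) → Fin (e + 1) → α) :=
  univ.image (fun (τ : Fin (b + 1) → Equiv.Perm (Fin (e + 1))) (i : Fin (b + 1)) =>
    F ((i : ℕ) + j) ∘ τ i)

/-- the keys: (level, label), ordered by level increasing, then label decreasing -/
abbrev Key (N : ℕ) := ℤ ×ₗ (Fin N)ᵒᵈ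

/-- level of a key -/
def Key.lev {N : ℕ} (k : Key N) : ℤ := (ofLex k).1

/-- label of a key -/
def Key.lab {N : ℕ} (k : Key N) : Fin N := OrderDual.ofDual (ofLex k).2

/-- `k'` may follow `k` -/
def RK (m : ℕ) {N : ℕ} (k k' : Key N) : Prop :=
  k'.lev < k.lev + m ∨ (k'.lev = k.lev + m ∧ k.lab < k'.lab)

instance (m N : ℕ) : DecidableRel (RK m (N := N)) := fun k k' => by
  unfold RK; infer_instance

/-- `(x, w)` is a labelled rectangular path (integer form) -/
def IsLRP (m : ℕ) {n N : ℕ} (x : Fin n → ℕ) (w : Fin n → Fin N) : Prop :=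
  Monotone x ∧ (∀ i, x i < m) ∧ ∀ i j, i < j → x i = x j → w i < w j

/-- `S` is minus the minimum of the levels -/
def IsBase (m : ℕ) {n : ℕ} (x : Fin n → ℕ) (S : ℤ) : Prop :=
  (∀ i, 0 ≤ lam m x i + S) ∧ ∃ i, lam m x i + S = 0

/-- key sequence of a path -/
def keyf (m : ℕ) {b e N : ℕ} (x : Fin ((e + 1) * (b + 1)) → ℕ)
    (w : Fin ((e + 1) * (b + 1)) → Fin N) (S : ℤ) (i : Fin (b + 1)) (t : Fin (e + 1)) : Key N :=
  toLex (lam m x (finProdFinEquiv (t, i)) + S, OrderDual.toDual (w (finProdFinEquiv (t, i))))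

end Pool.Agent.Lib.MP_0e7911_co_h50
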