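import Pool.Agent.Lib.MP_0e7911_co_h50.Base
import Pool.Agent.Lib.MP_0e7911_co_h56.Dinv
import Pool.Agent.Lib.MP_0e7911_co_h88.Ecum

/-!
# Summing over the bases
-/

set_option autoImplicit false

namespace Pool.Agent.Lib.MP_0e7911_co_h50

open Finset

theorem exists_perm_of_map {n N : ℕ} (f g : Fin n → ℤ × Fin N)
    (h : Multiset.map f univ.val = Multiset.map g univ.val) :
    ∃ σ : Equiv.Perm (Fin n), f = g ∘ σ := by
  obtain ⟨σ, hσ⟩ := exists_perm_of_count (fun t => toLex (f t)) (fun t => toLex (g t)) (by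
    intro k
    rw [← count_map_univ, ← count_map_univ]
    have h1 : Multiset.map (fun t => toLex (f t)) univ.val =
        Multiset.map toLex (Multiset.map f univ.val) := by rw [Multiset.map_map]; rfl
    have h2 : Multiset.map (fun t => toLex (g t)) univ.val =
        Multiset.map toLex (Multiset.map g univ.val) := by rw [Multiset.map_map]; rfl
    rw [h1, h2, h])
  exact ⟨σ, hσ⟩

theorem base_unique {m n : ℕ} (x : Fin n → ℕ) (S T : ℤ) (hS : IsBase m x S) (hT : IsBase m x T) :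
    S = T := by
  obtain ⟨h1, i, hi⟩ := hS
  obtain ⟨h2, j, hj⟩ := hT
  have := h1 j
  have := h2 i
  omega

section

variable {K : Type*} [Field K] {b e a N : ℕ}

/-- the levels of a periodic profile are bounded -/
theorem lev_bound (F : ℕ → Fin (e + 1) → Key N) (hper : ∀ i, F (i + (b + 1)) = F i) :
    ∃ B : ℕ, ∀ i r, (F i r).lev ≤ (B : ℤ) := by
  refine ⟨∑ i ∈ range (b + 1), ∑ r, ((F i r).lev).toNat, fun i r => ?_⟩
  have h1 : ∀ k, F (i % (b + 1) + (b + 1) * k) = F (i % (b + 1)) := by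
    intro k
    induction k with
    | zero => simp
    | succ k ih => rw [Nat.mul_succ, ← add_assoc, hper, ih]
  have h2 : F i = F (i % (b + 1)) := by
    conv_lhs => rw [← Nat.mod_add_div i (b + 1)]
    exact h1 _
  rw [h2]
  have h3 : ((F (i % (b + 1)) r).lev).toNat ≤ ∑ i ∈ range (b + 1), ∑ r, ((F i r).lev).toNat := by
    refine le_trans ?_ (single_le_sum (f := fun i => ∑ r, ((F i r).lev).toNat)
      (fun _ _ => Nat.zero_le _) (mem_range.2 (Nat.mod_lt i (Nat.succ_pos b))))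
    exact single_le_sum (f := fun r => ((F (i % (b + 1)) r).lev).toNat)
      (fun _ _ => Nat.zero_le _) (mem_univ r)
  have h4 := Int.self_le_toNat (F (i % (b + 1)) r).lev
  omega

open scoped Classical in
/-- The sum of `q ^ dinv` over the labelled paths with base `S` and given profile. -/
noncomputable def USum (q : K) (b e a : ℕ) {N : ℕ} (M0 : Multiset (ℤ × Fin N)) (S : ℤ) : K :=
  ∑ p : (Fin ((e + 1) * (b + 1)) → Fin ((e + 1) * a)) × (Fin ((e + 1) * (b + 1)) → Fin N),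
    if IsLRP ((e + 1) * a) (fun i => (p.1 i : ℕ)) p.2 ∧
        IsBase ((e + 1) * a) (fun i => (p.1 i : ℕ)) S ∧
        Multiset.map (fun i => (lam ((e + 1) * a) (fun i => (p.1 i : ℕ)) i + S, p.2 i)) univ.val = M0
      then q ^ dinvZ ((e + 1) * a) (fun i => (p.1 i : ℕ)) p.2 else 0

open scoped Classical in
theorem step_eq (q : K) (hq : q ≠ 0) (ha : 0 < a)
    (hcop : Nat.Coprime a (b + 1)) (x0 : Fin ((e + 1) * (b + 1)) → ℕ)
    (w0 : Fin ((e + 1) * (b + 1)) → Fin N) (S0 : ℤ) (hx0 : Monotone x0)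
    (M0 : Multiset (ℤ × Fin N))
    (hM0 : M0 = Multiset.map (fun i => (lam ((e + 1) * a) x0 i + S0, w0 i)) univ.val)
    (F : ℕ → Fin (e + 1) → Key N) (hF : ∀ i, Monotone (F i))
    (hper : ∀ i, F (i + (b + 1)) = F i)
    (hlev : ∀ (i : ℕ) (r : Fin (e + 1)),
      ((((e + 1) * (b + 1) : ℕ) : ℤ)) ∣ (F i r).lev - (((e + 1) * a : ℕ) : ℤ) * (i : ℤ))
    (hpos : ∀ i r, 0 ≤ (F i r).lev) (hzero : ∃ i r, (F i r).lev = 0)
    (hFM : Multiset.map (fun p : Fin (b + 1) × Fin (e + 1) =>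
          ((F (p.1 : ℕ) p.2).lev, (F (p.1 : ℕ) p.2).lab)) univ.val = M0)
    (hmem : ∀ (x : Fin ((e + 1) * (b + 1)) → ℕ) (w : Fin ((e + 1) * (b + 1)) → Fin N) (S : ℤ) (j : ℕ),
        ((((e + 1) * (b + 1) : ℕ) : ℤ)) ∣ S - (((e + 1) * a : ℕ) : ℤ) * (j : ℤ) →
        (keyf ((e + 1) * a) x w S ∈ Seqs F j ↔
          Multiset.map (fun i => (lam ((e + 1) * a) x i + S, w i)) univ.val = M0))
    (A : K)
    (hA : ∀ (j : ℕ) (r : Fin (e + 1)),
      PP (b := b) q (fun i => board (RK ((e + 1) * a)) F (i + j)) r =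
        q ^ ((r : ℕ) + predc (board (RK ((e + 1) * a)) F (j + b)) r) * A)
    (D0 : ℤ) (hD0 : D0 = dinvZ ((e + 1) * a) x0 w0 - Tst ((e + 1) * a) x0 w0 -
      Esum ((e + 1) * a) x0) (S : ℕ) :
    (q - 1) * (USum q b e a M0 (S : ℤ) * Phi q b F) =
      q ^ D0 * q ^ ((e : ℤ) + 1) * A *
        (q ^ Ecum b e a F ((S : ℤ) + 1) - q ^ Ecum b e a F (S : ℤ)) := by
  by_cases hS : (((e + 1 : ℕ) : ℤ)) ∣ (S : ℤ)
  · -- the class of `S`
    obtain ⟨j, hj⟩ : ∃ j : ℕ, ((((e + 1) * (b + 1) : ℕ) : ℤ)) ∣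
        (S : ℤ) - (((e + 1) * a : ℕ) : ℤ) * (j : ℤ) := by
      obtain ⟨c, hc⟩ := hS
      -- find j with a j ≡ c mod (b+1)
      obtain ⟨u, v, huv⟩ : ∃ u v : ℤ, a * u + ((b + 1 : ℕ) : ℤ) * v = 1 := by
        have := Nat.isCoprime_iff_coprime.2 hcop
        obtain ⟨u, v, h⟩ := this
        exact ⟨u, v, by rw [mul_comm _ u, mul_comm _ v]; exact h⟩
      refine ⟨((c * u) % ((b + 1 : ℕ) : ℤ)).toNat, ?_⟩
      have hb0 : (0 : ℤ) < ((b + 1 : ℕ) : ℤ) := by positivity
      have h1 : ((((c * u) % ((b + 1 : ℕ) : ℤ)).toNat : ℕ) : ℤ) = (c * u) % ((b + 1 : ℕ) : ℤ) :=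
        Int.toNat_of_nonneg (Int.emod_nonneg _ hb0.ne')
      rw [h1, hc, Int.emod_def]
      refine ⟨c * v + a * ((c * u) / ((b + 1 : ℕ) : ℤ)), ?_⟩
      have : c = c * (a * u + ((b + 1 : ℕ) : ℤ) * v) := by rw [huv, mul_one]
      push_cast at this ⊢
      linear_combination ((e : ℤ) + 1) * this
    set i := (univ.filter (fun r : Fin (e + 1) => (F j r).lev ≤ (S : ℤ))).card with hi
    set o := (univ.filter (fun r : Fin (e + 1) =>
      (F (j + b) r).lev + (((e + 1) * a : ℕ) : ℤ) ≤ (S : ℤ))).card with ho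
    have ho2 : o ≤ e + 1 := by rw [ho]; exact (card_filter_le _ _).trans (by simp)
    have hT := T_eq q hq ha hcop F hF hper hlev hpos hzero A hA S j i o hj hi ho
    have hE := Ecum_succ ha hcop F hper hlev S j hj
    rw [← hi, ← ho] at hE
    -- rewrite `USum`
    have hU : USum q b e a M0 (S : ℤ) = q ^ (D0 + Ecum b e a F (S : ℤ)) *
        ∑ p : (Fin ((e + 1) * (b + 1)) → Fin ((e + 1) * a)) ×
        (Fin ((e + 1) * (b + 1)) → Fin N),
      if IsLRP ((e + 1) * a) (fun i => (p.1 i : ℕ)) p.2 ∧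
          IsBase ((e + 1) * a) (fun i => (p.1 i : ℕ)) (S : ℤ) ∧
          keyf ((e + 1) * a) (fun i => (p.1 i : ℕ)) p.2 (S : ℤ) ∈ Seqs F j
        then q ^ Tst ((e + 1) * a) (fun i => (p.1 i : ℕ)) p.2 else 0 := by
      unfold USum
      rw [Finset.mul_sum]
      refine sum_congr rfl fun p _ => ?_
      by_cases h : IsLRP ((e + 1) * a) (fun i => (p.1 i : ℕ)) p.2 ∧
          IsBase ((e + 1) * a) (fun i => (p.1 i : ℕ)) (S : ℤ) ∧
          keyf ((e + 1) * a) (fun i => (p.1 i : ℕ)) p.2 (S : ℤ) ∈ Seqs F j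
      · have h' := (hmem _ _ (S : ℤ) j hj).1 h.2.2
        rw [if_pos h, if_pos ⟨h.1, h.2.1, h'⟩]
        -- the dinv formula
        obtain ⟨σ, hσ⟩ := exists_perm_of_map _ _ (h'.trans hM0)
        have hD := dinv_compare (m := (e + 1) * a) (n := (e + 1) * (b + 1)) (by positivity)
          (by positivity) x0 (fun i => (p.1 i : ℕ)) hx0 h.1.1 w0 p.2 σ (S0 - (S : ℤ))
          (fun i => by
            have := congrArg Prod.fst (congrFun hσ i)
            simp only [Function.comp_apply] at this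
            linarith)
          (fun i => congrArg Prod.snd (congrFun hσ i))
        have hEs := Esum_eq_Ecum F (fun i => (p.1 i : ℕ)) p.2 (S : ℤ) (hFM.trans h'.symm)
        rw [← hD0, hEs] at hD
        have hd : dinvZ ((e + 1) * a) (fun i => (p.1 i : ℕ)) p.2 =
            (D0 + Ecum b e a F (S : ℤ)) + (Tst ((e + 1) * a) (fun i => (p.1 i : ℕ)) p.2 : ℕ) := by
          linarith
        rw [hd, zpow_add₀ hq, zpow_natCast]
      · rw [if_neg h, if_neg (fun h' => h ⟨h'.1, h'.2.1, (hmem _ _ (S : ℤ) j hj).2 h'.2.2⟩), mul_zero]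
    rw [hU, hE]
    have h1 : q ^ (e + 1 + i - o) = q ^ (((e : ℤ) + 1) + ((i : ℤ) - (o : ℤ))) := by
      rw [← zpow_natCast]
      congr 1
      omega
    rw [h1] at hT
    have h2 : q ^ (e + 1) = q ^ ((e : ℤ) + 1) := by
      rw [← zpow_natCast]; congr 1
    rw [h2] at hT
    rw [zpow_add₀ hq ((e : ℤ) + 1)] at hT
    rw [show Ecum b e a F (S : ℤ) + (i : ℤ) - (o : ℤ) = Ecum b e a F (S : ℤ) + ((i : ℤ) - (o : ℤ)) by ring,
      zpow_add₀ hq (Ecum b e a F (S : ℤ)) ((i : ℤ) - (o : ℤ)), zpow_add₀ hq D0]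
    linear_combination (q ^ D0 * q ^ Ecum b e a F (S : ℤ)) * hT
  · rw [Ecum_succ' ha F hlev S hS, sub_self, mul_zero]
    have hU : USum q b e a M0 (S : ℤ) = 0 := by
      unfold USum
      refine sum_eq_zero fun p _ => ?_
      rw [if_neg]
      rintro ⟨_, ⟨_, i, hi⟩, _⟩
      apply hS
      have : (S : ℤ) = - lam ((e + 1) * a) (fun i => (p.1 i : ℕ)) i := by linarith
      rw [this]
      unfold lam
      refine ⟨-((a : ℤ) * (i : ℕ)) + (b + 1) * ((p.1 i : ℕ) : ℤ), ?_⟩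
      push_cast
      ring
    rw [hU]
    ring

open scoped Classical in
/-- The identity for the paths with given multiset of keys. -/
theorem total (q : K) (hq : q ≠ 0) (hq1 : q ≠ 1)
    (hPhi : ∀ G : Fin (e + 1) → Key N,
      (∑ g : Equiv.Perm (Fin (e + 1)), if G ∘ g = G then q ^ inv g else 0) ≠ 0)
    (ha : 0 < a) (hcop : Nat.Coprime a (b + 1)) (x0 : Fin ((e + 1) * (b + 1)) → ℕ)
    (w0 : Fin ((e + 1) * (b + 1)) → Fin N) (S0 : ℤ) (hx0 : Monotone x0)
    (h0 : IsBase ((e + 1) * a) x0 S0)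
    (M0 : Multiset (ℤ × Fin N))
    (hM0 : M0 = Multiset.map (fun i => (lam ((e + 1) * a) x0 i + S0, w0 i)) univ.val) :
    ∃ L0 : ℕ, ∀ L : ℕ, L0 ≤ L →
      (q ^ (M0.countP (fun z => z.1 = 0)) - 1) * ∑ S ∈ range L, USum q b e a M0 (S : ℤ) =
        (q ^ ((e + 1) * a) - 1) * USum q b e a M0 0 := by
  obtain ⟨F, hF, hper, hlev, hpos, hzero, hFM, hmem⟩ := profile_exists ha hcop x0 w0 S0 h0
  rw [← hM0] at hFM
  simp only [← hM0] at hmem
  obtain ⟨A, hA⟩ := core (b := b) q hq (fun i => board (RK ((e + 1) * a)) F i)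
    (fun i => board_mono _ (RK_mono_left _) F hF i) (fun i => board_per _ F hper i)
  obtain ⟨B, hB⟩ := lev_bound F hper
  set D0 := dinvZ ((e + 1) * a) x0 w0 - Tst ((e + 1) * a) x0 w0 -
      Esum ((e + 1) * a) x0 with hD0
  have hstep := fun S : ℕ => step_eq q hq ha hcop x0 w0 S0 hx0 M0 hM0 F hF hper hlev hpos hzero hFM
    hmem A hA D0 hD0 S
  have hPhi' : Phi q b F ≠ 0 := by
    unfold Phi
    exact prod_ne_zero_iff.2 fun i _ => hPhi _
  have hq1' : q - 1 ≠ 0 := sub_ne_zero.2 hq1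
  have hE0 : Ecum b e a F 0 = 0 := Ecum_zero F hpos
  refine ⟨B + (e + 1) * a, fun L hL => ?_⟩
  have hEL : Ecum b e a F (L : ℤ) = (((e + 1) * a : ℕ) : ℤ) :=
    Ecum_large ha F hper hlev (L : ℤ) (fun i r => by
      have := hB i r
      have h2 : ((B + (e + 1) * a : ℕ) : ℤ) ≤ (L : ℤ) := by exact_mod_cast hL
      push_cast at h2 ⊢
      linarith)
  -- the sum over all bases
  have hsum : (q - 1) * ((∑ S ∈ range L, USum q b e a M0 (S : ℤ)) * Phi q b F) =
      q ^ D0 * q ^ ((e : ℤ) + 1) * A * (q ^ ((e + 1) * a) - 1) := by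
    rw [Finset.sum_mul, Finset.mul_sum, sum_congr rfl (fun S _ => hstep S), ← Finset.mul_sum]
    congr 1
    have := Finset.sum_range_sub (fun S : ℕ => q ^ Ecum b e a F (S : ℤ)) L
    simp only [Nat.cast_add, Nat.cast_one, Nat.cast_zero] at this
    rw [this, hEL, hE0, zpow_natCast, zpow_zero]
  -- the base 0
  have hzero' : (q - 1) * (USum q b e a M0 0 * Phi q b F) =
      q ^ D0 * q ^ ((e : ℤ) + 1) * A * (q ^ (M0.countP (fun z => z.1 = 0)) - 1) := by
    have h1 := hstep 0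
    simp only [Nat.cast_zero] at h1
    rw [h1, hE0, zpow_zero]
    congr 2
    have hE := Ecum_succ ha hcop F hper hlev 0 0 (by simp)
    simp only [Nat.cast_zero] at hE
    rw [hE, hE0]
    have hno : (univ.filter (fun r : Fin (e + 1) =>
        (F (0 + b) r).lev + (((e + 1) * a : ℕ) : ℤ) ≤ 0)).card = 0 := by
      rw [card_eq_zero, filter_eq_empty_iff]
      intro r _
      have := hpos (0 + b) r
      have h3 : 0 < (((e + 1) * a : ℕ) : ℤ) := by positivity
      omega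
    rw [hno]
    have hk : M0.countP (fun z => z.1 = 0) =
        (univ.filter (fun r : Fin (e + 1) => (F 0 r).lev ≤ 0)).card := by
      rw [← hFM, Multiset.countP_map, ← Finset.filter_val, Finset.card_val]
      symm
      refine Finset.card_bij (fun r _ => ((0 : Fin (b + 1)), r)) ?_ ?_ ?_
      · intro r hr
        rw [mem_filter] at hr ⊢
        refine ⟨mem_univ _, ?_⟩
        have := hpos 0 r
        show (F ((0 : Fin (b + 1)) : ℕ) r).lev = 0
        rw [Fin.val_zero]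
        omega
      · intro r _ r' _ h
        exact (Prod.ext_iff.1 h).2
      · rintro ⟨i, r⟩ hir
        rw [mem_filter] at hir
        have h4 : (F (i : ℕ) r).lev = 0 := hir.2
        -- the class is `0`
        have h5 := hlev (i : ℕ) r
        rw [h4, zero_sub, dvd_neg] at h5
        have h6 : (((e + 1 : ℕ) : ℤ)) * ((b + 1 : ℕ) : ℤ) ∣ ((e + 1 : ℕ) : ℤ) * ((a : ℤ) * (i : ℕ)) := by
          have : ((e + 1 : ℕ) : ℤ) * ((a : ℤ) * (i : ℕ)) = (((e + 1) * a : ℕ) : ℤ) * ((i : ℕ) : ℤ) := by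
            push_cast; ring
          rw [this, ← Nat.cast_mul]
          exact h5
        have h7 := Int.dvd_of_mul_dvd_mul_left (by positivity : ((e + 1 : ℕ) : ℤ) ≠ 0) h6
        have h8 : (b + 1) ∣ a * (i : ℕ) := by exact_mod_cast h7
        have h9 : (b + 1) ∣ (i : ℕ) := (Nat.Coprime.dvd_of_dvd_mul_left hcop.symm h8)
        have h10 : (i : ℕ) = 0 := Nat.eq_zero_of_dvd_of_lt h9 i.2
        have h11 : i = 0 := Fin.ext h10
        subst h11
        refine ⟨r, ?_, rfl⟩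
        rw [mem_filter]
        refine ⟨mem_univ _, ?_⟩
        rw [Fin.val_zero] at h4
        omega
    rw [hk, zero_add, Nat.cast_zero, sub_zero, zpow_natCast]
  have h1 : (q - 1) * Phi q b F ≠ 0 := mul_ne_zero hq1' hPhi'
  apply mul_left_cancel₀ h1
  linear_combination (q ^ (M0.countP (fun z => z.1 = 0)) - 1) * hsum -
    (q ^ ((e + 1) * a) - 1) * hzero'

end

end Pool.Agent.Lib.MP_0e7911_co_h50
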